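import Pool.Agent.N96.PR.D
import Pool.Agent.R117.RL.Half2

/-! The half space with an additional centrifugal term, and polar coordinates in the plane. -/

set_option autoImplicit false

open MeasureTheory Set Filter Topology

namespace Pool.Agent.N96.AX

open Pool.Agent.N96.PR
open Pool.Agent.R117.RL (total2 limit_zero2)
open LTd (pd WGradC)

/-- A function on the half space with its partial derivatives. -/
structure DatL (k : ℕ) (α lam : ℝ) (f f0 : ℝ × (Fin k → ℝ) → ℂ)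
    (fj : Fin k → ℝ × (Fin k → ℝ) → ℂ) : Prop where
  h0 : ∀ r, 0 < r → ∀ y, HasDerivAt (fun t => f (t, y)) (f0 (r, y)) r
  hj : ∀ r, 0 < r → ∀ y j, HasLineDerivAt ℝ (fun y => f (r, y)) (fj j (r, y)) y (Pi.single j 1)
  cf : ContinuousOn f (Ioi 0 ×ˢ univ)
  c0 : ContinuousOn f0 (Ioi 0 ×ˢ univ)
  cj : ∀ j, ContinuousOn (fj j) (Ioi 0 ×ˢ univ)
  i2 : Integrable (fun z => ‖f z‖ ^ 2) (H k)
  iφ : Integrable (fun z => ‖f0 z - (α / z.1) • f z‖ ^ 2 + lam * (‖f z‖ ^ 2 / z.1 ^ 2)) (H k)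
  ij : ∀ j, Integrable (fun z => ‖fj j z‖ ^ 2) (H k)

variable {k : ℕ} {α lam : ℝ} {f f0 : ℝ × (Fin k → ℝ) → ℂ} {fj : Fin k → ℝ × (Fin k → ℝ) → ℂ}

theorem DatL.hardy (hα : 0 < α) (hl : 0 ≤ lam) (hc : 0 < α ^ 2 - α + lam)
    (h : DatL k α lam f f0 fj) :
    Integrable (fun z => ‖f0 z‖ ^ 2 + (α ^ 2 - α + lam) * (‖f z‖ ^ 2 / z.1 ^ 2)) (H k) ∧
    ∫ z, (‖f0 z‖ ^ 2 + (α ^ 2 - α + lam) * (‖f z‖ ^ 2 / z.1 ^ 2)) ∂(H k) ≤
      ∫ z, (‖f0 z - (α / z.1) • f z‖ ^ 2 + lam * (‖f z‖ ^ 2 / z.1 ^ 2)) ∂(H k) := by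
  set A : ℝ × (Fin k → ℝ) → ℝ :=
    fun z => ‖f0 z‖ ^ 2 + (α ^ 2 - α + lam) * (‖f z‖ ^ 2 / z.1 ^ 2) with hAdef
  have hA : ContinuousOn A (Ioi 0 ×ˢ univ) := by
    refine (h.c0.norm.pow 2).add (continuousOn_const.mul ((h.cf.norm.pow 2).div
      (continuous_fst.pow 2).continuousOn fun z hz => ?_))
    have : (0 : ℝ) < z.1 := hz.1
    positivity
  have hnn : ∀ z, 0 ≤ A z := fun z => by simp only [hAdef]; positivity
  have hAm := H_meas hA
  have hφi := h.iφ
  have h2i := h.i2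
  rw [H] at hAm hφi h2i ⊢
  have hsl : ∀ᵐ y : Fin k → ℝ, Integrable (fun r => A (r, y)) (volume.restrict (Ioi 0)) ∧
      ∫ r in Ioi 0, A (r, y) ≤ ∫ r in Ioi 0, (‖f0 (r, y) - (α / r) • f (r, y)‖ ^ 2 +
        lam * (‖f (r, y)‖ ^ 2 / r ^ 2)) := by
    filter_upwards [h2i.prod_left_ae, hφi.prod_left_ae] with y hy1 hy2
    exact total2 hα hl hc (f := fun r => f (r, y)) (f' := fun r => f0 (r, y))
      (fun r hr => h.h0 r hr y) (slice_cont h.c0 y) hy1 hy2
  have hint : Integrable A ((volume.restrict (Ioi (0 : ℝ))).prod volume) := by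
    rw [integrable_prod_iff' hAm]
    refine ⟨hsl.mono fun y hy => hy.1, ?_⟩
    refine Integrable.mono' hφi.integral_prod_right ?_ ?_
    · exact hAm.norm.prod_swap.integral_prod_right'
    · filter_upwards [hsl] with y hy
      rw [Real.norm_eq_abs, abs_of_nonneg (integral_nonneg fun _ => norm_nonneg _)]
      refine le_trans (le_of_eq ?_) hy.2
      refine integral_congr_ae (Eventually.of_forall fun r => ?_)
      exact Real.norm_of_nonneg (hnn _)
  refine ⟨hint, ?_⟩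
  rw [integral_prod_symm _ hint, integral_prod_symm _ hφi]
  refine integral_mono_ae hint.integral_prod_right hφi.integral_prod_right ?_
  exact hsl.mono fun y hy => hy.2

/-- integration by parts in the radial variable -/
theorem ibp0L (hα : 0 < α) (hl : 0 ≤ lam) (hc0 : 0 < α ^ 2 - α + lam) {h h' : ℝ → ℂ}
    (hd : ∀ r, 0 < r → HasDerivAt h (h' r) r)
    (hc : ContinuousOn h' (Ioi 0)) (h2 : IntegrableOn (fun r => ‖h r‖ ^ 2) (Ioi 0))
    (hφ : IntegrableOn (fun r => ‖h' r - (α / r) • h r‖ ^ 2 + lam * (‖h r‖ ^ 2 / r ^ 2)) (Ioi 0))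
    {ψ ψ' : ℝ → ℝ}
    (hψ : ∀ r, HasDerivAt ψ (ψ' r) r) (hψc : Continuous ψ') (hs : HasCompactSupport ψ)
    (hs' : HasCompactSupport ψ') :
    ∫ r in Ioi (0 : ℝ), h r * (ψ' r : ℂ) = - ∫ r in Ioi (0 : ℝ), h' r * (ψ r : ℂ) := by
  have hch : ContinuousOn h (Ioi 0) := fun r hr => (hd r hr).continuousAt.continuousWithinAt
  have hψ0 : Continuous ψ := continuous_iff_continuousAt.2 fun r => (hψ r).continuousAt
  have ht := (total2 hα hl hc0 hd hc h2 hφ).1
  have h2' : IntegrableOn (fun r => ‖h' r‖ ^ 2) (Ioi 0) := by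
    refine Integrable.mono' ht ((hc.norm.pow 2).aestronglyMeasurable measurableSet_Ioi) ?_
    refine Eventually.of_forall fun r => ?_
    rw [Real.norm_of_nonneg (sq_nonneg _)]
    have : 0 ≤ (α ^ 2 - α + lam) * (‖h r‖ ^ 2 / r ^ 2) := by positivity
    linarith
  have m1 : MemLp h 2 (volume.restrict (Ioi (0 : ℝ))) :=
    (memLp_two_iff_integrable_sq_norm (hch.aestronglyMeasurable measurableSet_Ioi)).2 h2
  have m2 : MemLp h' 2 (volume.restrict (Ioi (0 : ℝ))) :=
    (memLp_two_iff_integrable_sq_norm (hc.aestronglyMeasurable measurableSet_Ioi)).2 h2'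
  have n1 : MemLp (fun r => (ψ' r : ℂ)) 2 (volume.restrict (Ioi (0 : ℝ))) :=
    ((Complex.continuous_ofReal.comp hψc).memLp_of_hasCompactSupport
      (hs'.comp_left (g := fun t : ℝ => (t : ℂ)) Complex.ofReal_zero)).restrict _
  have n2 : MemLp (fun r => (ψ r : ℂ)) 2 (volume.restrict (Ioi (0 : ℝ))) :=
    ((Complex.continuous_ofReal.comp hψ0).memLp_of_hasCompactSupport
      (hs.comp_left (g := fun t : ℝ => (t : ℂ)) Complex.ofReal_zero)).restrict _
  have key := integral_Ioi_mul_deriv_eq_deriv_mul (a := 0) (u := h) (u' := h')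
    (v := fun r => (ψ r : ℂ)) (v' := fun r => (ψ' r : ℂ)) (a' := 0) (b' := 0)
    (fun r hr => hd r hr) (fun r _ => (hψ r).ofReal_comp) (m1.integrable_mul n1)
    (m2.integrable_mul n2) ?_ ?_
  · rw [key]; ring
  · have l1 := limit_zero2 hα hl hc0 hd hc h2 hφ
    have l2 : Tendsto (fun r => (ψ r : ℂ)) (𝓝[>] 0) (𝓝 (ψ 0 : ℂ)) :=
      ((Complex.continuous_ofReal.comp hψ0).tendsto 0).mono_left nhdsWithin_le_nhds
    have := l1.mul l2
    rwa [zero_mul] at this
  · have h5 : (fun r => ψ r) =ᶠ[atTop] fun _ => (0 : ℝ) := by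
      have h6 := hasCompactSupport_iff_eventuallyEq.1 hs
      rw [coclosedCompact_eq_cocompact] at h6
      exact h6.filter_mono atTop_le_cocompact
    refine Tendsto.congr' ?_ tendsto_const_nhds
    filter_upwards [h5] with r hr
    simp [hr]

theorem DatL.f0_int (hα : 0 < α) (hl : 0 ≤ lam) (hc : 0 < α ^ 2 - α + lam)
    (h : DatL k α lam f f0 fj) : Integrable (fun z => ‖f0 z‖ ^ 2) (H k) := by
  refine Integrable.mono' (h.hardy hα hl hc).1 (H_meas (h.c0.norm.pow 2)) ?_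
  refine Eventually.of_forall fun z => ?_
  rw [Real.norm_of_nonneg (sq_nonneg _)]
  have : 0 ≤ (α ^ 2 - α + lam) * (‖f z‖ ^ 2 / z.1 ^ 2) := by positivity
  linarith

theorem DatL.wgrad (hα : 0 < α) (hl : 0 ≤ lam) (hc0 : 0 < α ^ 2 - α + lam)
    (h : DatL k α lam f f0 fj) :
    WGradC (ext f) (Fin.cons (ext f0) (fun j => ext (fj j))) := by
  have hf := ext_memLp h.cf h.i2
  have hf0 := ext_memLp h.c0 (h.f0_int hα hl hc0)
  have hfj := fun j => ext_memLp (h.cj j) (h.ij j)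
  refine ⟨hf.2, fun i => ?_, fun i φ hφ hc => ?_⟩
  · refine Fin.cases ?_ (fun j => ?_) i
    · exact hf0.2
    · exact (hfj j).2
  have hφc := hφ.continuous
  revert i
  refine Fin.cases ?_ (fun j => ?_)
  · show ∫ x, ext f x * (pd 0 φ x : ℂ) = - ∫ x, ext f0 x * (φ x : ℂ)
    simp only [ext_mul]
    rw [ext_integral, ext_integral]
    have i1 : Integrable (fun z => f z * (pd 0 φ (C z) : ℂ)) (H k) :=
      hf.1.integrable_mul (comp_memLp (pd_cont hφ 0) (pd_supp hc 0))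
    have i2 : Integrable (fun z => f0 z * (φ (C z) : ℂ)) (H k) :=
      hf0.1.integrable_mul (comp_memLp hφc hc)
    have j1 := h.i2
    have j2 := h.iφ
    rw [H] at i1 i2 j1 j2 ⊢
    rw [integral_prod_symm _ i1, integral_prod_symm _ i2, ← integral_neg]
    refine integral_congr_ae ?_
    filter_upwards [j1.prod_left_ae, j2.prod_left_ae] with y hy1 hy2
    exact ibp0L hα hl hc0 (h := fun r => f (r, y)) (h' := fun r => f0 (r, y))
      (fun r hr => h.h0 r hr y) (slice_cont h.c0 y) hy1 hy2 (ψ := fun r => φ (C (r, y)))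
      (ψ' := fun r => pd 0 φ (C (r, y))) (fun r => phi_d0 hφ y r)
      ((pd_cont hφ 0).comp (C1_emb y).continuous) (hc.comp_isClosedEmbedding (C1_emb y))
      ((pd_supp hc 0).comp_isClosedEmbedding (C1_emb y))
  · show ∫ x, ext f x * (pd j.succ φ x : ℂ) = - ∫ x, ext (fj j) x * (φ x : ℂ)
    simp only [ext_mul]
    rw [ext_integral, ext_integral]
    have i1 : Integrable (fun z => f z * (pd j.succ φ (C z) : ℂ)) (H k) :=
      hf.1.integrable_mul (comp_memLp (pd_cont hφ j.succ) (pd_supp hc j.succ))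
    have i2 : Integrable (fun z => fj j z * (φ (C z) : ℂ)) (H k) :=
      (hfj j).1.integrable_mul (comp_memLp hφc hc)
    rw [H] at i1 i2 ⊢
    rw [integral_prod _ i1, integral_prod _ i2, ← integral_neg]
    refine setIntegral_congr_fun measurableSet_Ioi fun r hr => ?_
    have hr0 : (0 : ℝ) < r := hr
    have cs1 := hc.comp_isClosedEmbedding (C2_emb (k := k) r)
    have cs2 := (pd_supp hc j.succ).comp_isClosedEmbedding (C2_emb (k := k) r)
    refine ibpj j (h := fun y => f (r, y)) (h' := fun y => fj j (r, y))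
      (ψ := fun y => (φ (C (r, y)) : ℂ)) (ψ' := fun y => (pd j.succ φ (C (r, y)) : ℂ))
      (fun y => h.hj r hr0 y j) (fun y => ?_) (slice_cont' h.cf hr0) (slice_cont' (h.cj j) hr0)
      (Complex.continuous_ofReal.comp (hφc.comp (C2_emb r).continuous))
      (Complex.continuous_ofReal.comp ((pd_cont hφ j.succ).comp (C2_emb r).continuous))
      (cs1.comp_left (g := fun t : ℝ => (t : ℂ)) Complex.ofReal_zero)
      (cs2.comp_left (g := fun t : ℝ => (t : ℂ)) Complex.ofReal_zero)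
    exact HasDerivAt.ofReal_comp (phi_dj hφ y r j)

/-- polar coordinates in the plane -/
theorem polarC {V : Type} [NormedAddCommGroup V] [NormedSpace ℝ V] (h : ℝ → V) :
    ∫ x : ℂ, h ‖x‖ = (2 * Real.pi) • ∫ y in Ioi (0 : ℝ), y ^ 1 • h y := by
  have h1 := integral_fun_norm_addHaar (volume : Measure ℂ) h
  rw [Complex.finrank_real_complex] at h1
  have h2 : (volume : Measure ℂ).real (Metric.ball 0 1) = Real.pi := by
    rw [Measure.real, Complex.volume_ball]
    simp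
  rw [h1, h2, mul_smul, two_nsmul, two_smul]

theorem polarC_int {V : Type} [NormedAddCommGroup V] [NormedSpace ℝ V] {h : ℝ → V} :
    Integrable (fun x : ℂ => h ‖x‖) ↔ IntegrableOn (fun y => y ^ 1 • h y) (Ioi (0 : ℝ)) := by
  have h1 := integrable_fun_norm_addHaar (μ := (volume : Measure ℂ)) (f := h)
  rw [Complex.finrank_real_complex] at h1
  exact h1

theorem C_ae : ∀ᵐ z ∂(volume : Measure (ℂ × (Fin k → ℝ))), z.1 ≠ 0 := by
  rw [Measure.volume_eq_prod]
  have h1 : ∀ᵐ x ∂(volume : Measure ℂ), x ≠ 0 := by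
    rw [ae_iff]
    have : {a : ℂ | ¬a ≠ 0} = {0} := by ext; simp
    rw [this]
    exact measure_singleton _
  exact Measure.quasiMeasurePreserving_fst.ae h1

theorem C_meas {V : Type} [NormedAddCommGroup V] {G : ℝ → (Fin k → ℝ) → V}
    (hG : ContinuousOn (fun z : ℝ × (Fin k → ℝ) => G z.1 z.2) (Ioi 0 ×ˢ univ)) :
    AEStronglyMeasurable (fun z : ℂ × (Fin k → ℝ) => G ‖z.1‖ z.2) volume := by
  set S : Set (ℂ × (Fin k → ℝ)) := {z | z.1 ≠ 0} with hS
  have hSo : IsOpen S := isOpen_ne_fun continuous_fst continuous_const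
  have hc : ContinuousOn (fun z : ℂ × (Fin k → ℝ) => G ‖z.1‖ z.2) S := by
    refine hG.comp (f := fun z : ℂ × (Fin k → ℝ) => (‖z.1‖, z.2))
      (continuous_fst.norm.prodMk continuous_snd).continuousOn ?_
    intro z hz
    exact ⟨norm_pos_iff.2 hz, mem_univ _⟩
  have hae : ∀ᵐ z ∂(volume : Measure (ℂ × (Fin k → ℝ))), z ∈ S := C_ae
  have h2 := hc.aestronglyMeasurable (μ := volume) hSo.measurableSet
  rwa [Measure.restrict_eq_self_of_ae_mem hae] at h2

theorem polC_int {V : Type} [NormedAddCommGroup V] [NormedSpace ℝ V]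
    {G : ℝ → (Fin k → ℝ) → V}
    (hG : ContinuousOn (fun z : ℝ × (Fin k → ℝ) => G z.1 z.2) (Ioi 0 ×ˢ univ)) :
    Integrable (fun z : ℂ × (Fin k → ℝ) => G ‖z.1‖ z.2) ↔
      Integrable (fun z : ℝ × (Fin k → ℝ) => z.1 ^ 1 • G z.1 z.2) (H k) := by
  have h1 := C_meas hG
  have h2 := H_meas (smul_cont (q := 1) hG)
  have h2π : (0 : ℝ) < 2 * Real.pi := by have := Real.pi_pos; positivity
  rw [Measure.volume_eq_prod] at h1 ⊢
  rw [H] at h2 ⊢
  rw [integrable_prod_iff' h1, integrable_prod_iff' h2]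
  refine and_congr ?_ ?_
  · exact eventually_congr (Eventually.of_forall fun y => polarC_int (h := fun r => G r y))
  · have e1 : (fun y => ∫ x : ℂ, ‖G ‖x‖ y‖) =
        fun y => (2 * Real.pi) • ∫ r in Ioi 0, r ^ 1 • ‖G r y‖ :=
      funext fun y => polarC (h := fun r => ‖G r y‖)
    have e2 : (fun y => ∫ r in Ioi (0 : ℝ), ‖r ^ 1 • G r y‖) =
        fun y => ∫ r in Ioi 0, r ^ 1 • ‖G r y‖ := by
      funext y
      refine setIntegral_congr_fun measurableSet_Ioi fun r hr => ?_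
      have hr0 : (0 : ℝ) < r := hr
      show ‖r ^ 1 • G r y‖ = r ^ 1 • ‖G r y‖
      rw [norm_smul, Real.norm_of_nonneg (by positivity), smul_eq_mul]
    show Integrable (fun y => ∫ x : ℂ, ‖G ‖x‖ y‖) volume ↔
      Integrable (fun y => ∫ r in Ioi (0 : ℝ), ‖r ^ 1 • G r y‖) volume
    rw [e1, e2]
    exact integrable_fun_smul_iff h2π.ne' _

theorem polC {V : Type} [NormedAddCommGroup V] [NormedSpace ℝ V]
    {G : ℝ → (Fin k → ℝ) → V}
    (hG : ContinuousOn (fun z : ℝ × (Fin k → ℝ) => G z.1 z.2) (Ioi 0 ×ˢ univ))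
    (hi : Integrable (fun z : ℂ × (Fin k → ℝ) => G ‖z.1‖ z.2)) :
    ∫ z : ℂ × (Fin k → ℝ), G ‖z.1‖ z.2 =
      (2 * Real.pi) • ∫ z, z.1 ^ 1 • G z.1 z.2 ∂(H k) := by
  have hi' := (polC_int hG).1 hi
  rw [Measure.volume_eq_prod] at hi ⊢
  rw [H] at hi' ⊢
  rw [integral_prod_symm _ hi, integral_prod_symm _ hi', ← integral_smul]
  refine integral_congr_ae (Eventually.of_forall fun y => ?_)
  exact polarC (h := fun r => G r y)

end Pool.Agent.N96.AX
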