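import Pool.Agent.N96.AX.A
import Pool.Agent.N96.PR.G
import Pool.Agent.N96.PR.I

/-! The kinetic inequality for one channel. -/

set_option autoImplicit false

open MeasureTheory Set Filter Topology

namespace Pool.Agent.N96.AX

open Pool.Agent.N96.PR
open Pool.Agent.R117.RL (pow_frac)
open LTd (pd WGradC)

/-- the constant -/
noncomputable def KC (n : ℕ) (s K c : ℝ) : ℝ :=
  (((1 + n : ℕ) : ℝ) / (n : ℝ) * K) ^ ((n : ℝ) / ((1 + n : ℕ) : ℝ)) *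
  (((1 + n : ℕ) : ℝ) * c) ^ ((1 : ℕ) / ((1 + n : ℕ) : ℝ)) *
  s ^ (2 / ((1 + n : ℕ) : ℝ))

theorem KC_pow {n : ℕ} (hn : 0 < n) {s K c : ℝ} (hK : 0 < K) (hs : 0 < s) (hc : 0 < c) :
    KC n s K c ^ (1 + n) = (((1 + n : ℕ) : ℝ) / (n : ℝ) * K) ^ n *
      (((1 + n : ℕ) : ℝ) * c) ^ 1 * s ^ 2 := by
  have hd : 0 < 1 + n := by omega
  have e1 := pow_frac (x := ((1 + n : ℕ) : ℝ) / (n : ℝ) * K) (by positivity) hd n
  have e2 := pow_frac (x := ((1 + n : ℕ) : ℝ) * c) (by positivity) hd 1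
  have e3 := pow_frac (x := s) hs.le hd 2
  rw [Nat.cast_ofNat] at e3
  unfold KC
  rw [mul_pow, mul_pow, e1, e2, e3]

theorem KC_pos {n : ℕ} (hn : 0 < n) {s K c : ℝ} (hK : 0 < K) (hs : 0 < s) (hc : 0 < c) :
    0 < KC n s K c := by
  have hn' : (0 : ℝ) < n := by exact_mod_cast hn
  have hd' : (0 : ℝ) < ((1 + n : ℕ) : ℝ) := by positivity
  unfold KC
  positivity

theorem ptwc {n : ℕ} (hn : 0 < n) {s r P K c : ℝ} (hK : 0 < K) (hs : 0 < s) (hc : 0 < c)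
    (hr : 0 < r) (hP : 0 ≤ P) :
    KC n s K c * (s * r ^ 1 * P ^ (1 + 2 / ((1 + n : ℕ) : ℝ))) ≤
      K * (s * r ^ 1 * P) ^ (1 + 2 / (n : ℝ)) + c * (s * r ^ 1 * P / r ^ 2) := by
  have hn' : (0 : ℝ) < n := by exact_mod_cast hn
  have hd : 0 < 1 + n := by omega
  have hd' : (0 : ℝ) < ((1 + n : ℕ) : ℝ) := by positivity
  have hcast : ((1 + n : ℕ) : ℝ) = (1 : ℝ) + n := by push_cast; ring
  rcases hP.eq_or_lt with h0 | hP
  · rw [← h0, Real.zero_rpow (by positivity)]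
    simp only [mul_zero, zero_div, add_zero]
    rw [Real.zero_rpow (by positivity), mul_zero]
  have hKK := KC_pow hn hK hs hc
  have hKK0 := (KC_pos hn hK hs hc).le
  set S := s * r ^ 1 * P with hS
  have hSpos : 0 < S := by positivity
  have h1 : P ^ (1 + 2 / ((1 + n : ℕ) : ℝ)) = P * P ^ (2 / ((1 + n : ℕ) : ℝ)) := by
    rw [Real.rpow_add hP, Real.rpow_one]
  set p₁ : ℝ := ((1 + n : ℕ) : ℝ) / (n : ℝ) * K * S ^ (2 / (n : ℝ)) with hp1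
  set p₂ : ℝ := ((1 + n : ℕ) : ℝ) * c / r ^ 2 with hp2
  have hp1p : 0 < p₁ := by positivity
  have hp2p : 0 < p₂ := by positivity
  have hamgm := Real.geom_mean_le_arith_mean2_weighted (w₁ := (n : ℝ) / ((1 + n : ℕ) : ℝ))
    (w₂ := (1 : ℕ) / ((1 + n : ℕ) : ℝ)) (by positivity) (by positivity) hp1p.le hp2p.le
    (by rw [hcast]; push_cast; field_simp; ring)
  have heq : KC n s K c * P ^ (2 / ((1 + n : ℕ) : ℝ)) =
      p₁ ^ ((n : ℝ) / ((1 + n : ℕ) : ℝ)) * p₂ ^ ((1 : ℕ) / ((1 + n : ℕ) : ℝ)) := by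
    rw [← pow_left_inj₀ (by positivity) (by positivity) hd.ne']
    have e3 := pow_frac hP.le hd 2
    have e4 := pow_frac hp1p.le hd n
    have e5 := pow_frac hp2p.le hd 1
    have e6 := pow_frac hSpos.le hn 2
    rw [Nat.cast_ofNat] at e3 e6
    rw [mul_pow, mul_pow, hKK, e3, e4, e5, hp1, hp2, mul_pow _ (S ^ (2 / (n : ℝ))), e6, hS]
    field_simp
  have h2 : KC n s K c * P ^ (2 / ((1 + n : ℕ) : ℝ)) ≤ K * S ^ (2 / (n : ℝ)) + c / r ^ 2 := by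
    rw [heq]
    refine hamgm.trans (le_of_eq ?_)
    rw [hp1, hp2]
    push_cast
    field_simp
  calc KC n s K c * (s * r ^ 1 * P ^ (1 + 2 / ((1 + n : ℕ) : ℝ)))
      = S * (KC n s K c * P ^ (2 / ((1 + n : ℕ) : ℝ))) := by
        rw [h1, hS]
        ring
    _ ≤ S * (K * S ^ (2 / (n : ℝ)) + c / r ^ 2) :=
        mul_le_mul_of_nonneg_left h2 hSpos.le
    _ = _ := by
        rw [Real.rpow_add hSpos, Real.rpow_one]
        ring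

/-- the weight -/
noncomputable def wc (r : ℝ) : ℝ := √(2 * Real.pi) * r ^ ((1 : ℝ) / 2)

/-- its derivative -/
noncomputable def wc' (r : ℝ) : ℝ := √(2 * Real.pi) * ((1 : ℝ) / 2 * r ^ ((1 : ℝ) / 2 - 1))

theorem wc_sq {r : ℝ} (hr : 0 < r) : wc r ^ 2 = 2 * Real.pi * r ^ 1 := by
  have := Real.pi_pos
  unfold wc
  rw [mul_pow, Real.sq_sqrt (by positivity), ← Real.rpow_natCast (r ^ ((1 : ℝ) / 2)) 2,
    ← Real.rpow_mul hr.le]
  congr 1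
  rw [← Real.rpow_natCast r 1]
  congr 1
  push_cast
  ring

theorem wc_deriv {r : ℝ} (hr : 0 < r) : HasDerivAt wc (wc' r) r :=
  (Real.hasDerivAt_rpow_const (Or.inl hr.ne')).const_mul _

theorem wc'_eq {r : ℝ} (hr : 0 < r) : wc' r = (1 : ℝ) / 2 / r * wc r := by
  unfold wc wc'
  rw [Real.rpow_sub_one hr.ne']
  field_simp

theorem wc_cont : ContinuousOn wc (Ioi 0) := fun _ hr =>
  (wc_deriv hr).continuousAt.continuousWithinAt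

theorem wc'_cont : ContinuousOn wc' (Ioi 0) := by
  apply ContinuousOn.mul continuousOn_const
  apply ContinuousOn.mul continuousOn_const
  exact ContinuousOn.rpow_const continuousOn_id fun r hr => Or.inl (ne_of_gt hr)

theorem wc_norm {r : ℝ} (hr : 0 < r) (v : ℂ) :
    ‖wc r • v‖ ^ 2 = 2 * Real.pi * (r ^ 1 • ‖v‖ ^ 2) := by
  rw [norm_smul, mul_pow, Real.norm_eq_abs, sq_abs, wc_sq hr, smul_eq_mul]
  ring

/-- A profile with its partial derivatives. -/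
structure ProfC (k : ℕ) (lam : ℝ) (F F0 : ℝ × (Fin k → ℝ) → ℂ)
    (Fj : Fin k → ℝ × (Fin k → ℝ) → ℂ) : Prop where
  h0 : ∀ r, 0 < r → ∀ y, HasDerivAt (fun t => F (t, y)) (F0 (r, y)) r
  hj : ∀ r, 0 < r → ∀ y j, HasLineDerivAt ℝ (fun y => F (r, y)) (Fj j (r, y)) y (Pi.single j 1)
  cf : ContinuousOn F (Ioi 0 ×ˢ univ)
  c0 : ContinuousOn F0 (Ioi 0 ×ˢ univ)
  cj : ∀ j, ContinuousOn (Fj j) (Ioi 0 ×ˢ univ)
  i2 : Integrable (fun z : ℂ × (Fin k → ℝ) => ‖F (‖z.1‖, z.2)‖ ^ 2)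
  i0 : Integrable (fun z : ℂ × (Fin k → ℝ) => ‖F0 (‖z.1‖, z.2)‖ ^ 2 +
    lam * (‖F (‖z.1‖, z.2)‖ ^ 2 / ‖z.1‖ ^ 2))
  ij : ∀ j, Integrable (fun z : ℂ × (Fin k → ℝ) => ‖Fj j (‖z.1‖, z.2)‖ ^ 2)

variable {k : ℕ} {lam : ℝ} {F F0 : ℝ × (Fin k → ℝ) → ℂ} {Fj : Fin k → ℝ × (Fin k → ℝ) → ℂ}

theorem nsqC_int {g : ℝ × (Fin k → ℝ) → ℂ} (hg : ContinuousOn g (Ioi 0 ×ˢ univ))
    (hi : Integrable (fun z : ℂ × (Fin k → ℝ) => ‖g (‖z.1‖, z.2)‖ ^ 2)) :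
    Integrable (fun z => ‖wc z.1 • g z‖ ^ 2) (H k) ∧
      ∫ z, ‖wc z.1 • g z‖ ^ 2 ∂(H k) =
        ∫ z : ℂ × (Fin k → ℝ), ‖g (‖z.1‖, z.2)‖ ^ 2 := by
  have h1 := (polC_int (G := fun r y => ‖g (r, y)‖ ^ 2) (hg.norm.pow 2)).1 hi
  have h2 := polC (G := fun r y => ‖g (r, y)‖ ^ 2) (hg.norm.pow 2) hi
  have h3 : (fun z : ℝ × (Fin k → ℝ) => 2 * Real.pi * (z.1 ^ 1 • ‖g (z.1, z.2)‖ ^ 2)) =ᵐ[H k]
      fun z => ‖wc z.1 • g z‖ ^ 2 := by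
    filter_upwards [H_ae k] with z hz
    exact (wc_norm hz _).symm
  refine ⟨(h1.const_mul (2 * Real.pi)).congr h3, ?_⟩
  rw [← integral_congr_ae h3, integral_const_mul]
  exact h2.symm

theorem ProfC.phi_int (h : ProfC k lam F F0 Fj) :
    Integrable (fun z => ‖(wc z.1 • F0 z + wc' z.1 • F z) - ((1 : ℝ) / 2 / z.1) • (wc z.1 • F z)‖ ^ 2
      + lam * (‖wc z.1 • F z‖ ^ 2 / z.1 ^ 2)) (H k) ∧
    ∫ z, (‖(wc z.1 • F0 z + wc' z.1 • F z) - ((1 : ℝ) / 2 / z.1) • (wc z.1 • F z)‖ ^ 2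
      + lam * (‖wc z.1 • F z‖ ^ 2 / z.1 ^ 2)) ∂(H k) =
      ∫ z : ℂ × (Fin k → ℝ), (‖F0 (‖z.1‖, z.2)‖ ^ 2 +
        lam * (‖F (‖z.1‖, z.2)‖ ^ 2 / ‖z.1‖ ^ 2)) := by
  have hg : ContinuousOn (fun z : ℝ × (Fin k → ℝ) => ‖F0 (z.1, z.2)‖ ^ 2 +
      lam * (‖F (z.1, z.2)‖ ^ 2 / z.1 ^ 2)) (Ioi 0 ×ˢ univ) := by
    refine (h.c0.norm.pow 2).add (continuousOn_const.mul ((h.cf.norm.pow 2).div
      (continuous_fst.pow 2).continuousOn fun z hz => ?_))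
    have : (0 : ℝ) < z.1 := hz.1
    positivity
  have h1 := (polC_int (G := fun r y => ‖F0 (r, y)‖ ^ 2 + lam * (‖F (r, y)‖ ^ 2 / r ^ 2)) hg).1 h.i0
  have h2 := polC (G := fun r y => ‖F0 (r, y)‖ ^ 2 + lam * (‖F (r, y)‖ ^ 2 / r ^ 2)) hg h.i0
  have h3 : (fun z : ℝ × (Fin k → ℝ) => 2 * Real.pi * (z.1 ^ 1 • (‖F0 (z.1, z.2)‖ ^ 2 +
      lam * (‖F (z.1, z.2)‖ ^ 2 / z.1 ^ 2)))) =ᵐ[H k]
      fun z => ‖(wc z.1 • F0 z + wc' z.1 • F z) - ((1 : ℝ) / 2 / z.1) • (wc z.1 • F z)‖ ^ 2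
      + lam * (‖wc z.1 • F z‖ ^ 2 / z.1 ^ 2) := by
    filter_upwards [H_ae k] with z hz
    have e1 : (wc z.1 • F0 z + wc' z.1 • F z) - ((1 : ℝ) / 2 / z.1) • (wc z.1 • F z) =
        wc z.1 • F0 z := by
      rw [wc'_eq hz, smul_smul]
      abel
    rw [e1, wc_norm hz, wc_norm hz]
    simp only [smul_eq_mul]
    ring
  refine ⟨(h1.const_mul (2 * Real.pi)).congr h3, ?_⟩
  rw [← integral_congr_ae h3, integral_const_mul]
  exact h2.symm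

theorem ProfC.dat (h : ProfC k lam F F0 Fj) :
    DatL k ((1 : ℝ) / 2) lam (fun z => wc z.1 • F z) (fun z => wc z.1 • F0 z + wc' z.1 • F z)
      (fun j z => wc z.1 • Fj j z) := by
  have cw : ContinuousOn (fun z : ℝ × (Fin k → ℝ) => wc z.1) (Ioi 0 ×ˢ univ) :=
    wc_cont.comp continuousOn_fst fun z hz => hz.1
  have cw' : ContinuousOn (fun z : ℝ × (Fin k → ℝ) => wc' z.1) (Ioi 0 ×ˢ univ) :=
    wc'_cont.comp continuousOn_fst fun z hz => hz.1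
  refine ⟨fun r hr y => ?_, fun r hr y j => ?_, cw.smul h.cf, (cw.smul h.c0).add (cw'.smul h.cf),
    fun j => cw.smul (h.cj j), (nsqC_int h.cf h.i2).1, h.phi_int.1,
    fun j => (nsqC_int (h.cj j) (h.ij j)).1⟩
  · exact (wc_deriv hr).smul (h.h0 r hr y)
  · exact HasDerivAt.const_smul (wc r) (h.hj r hr y j)

theorem C_memLp {g : ℝ × (Fin k → ℝ) → ℂ} (hg : ContinuousOn g (Ioi 0 ×ˢ univ))
    (hi : Integrable (fun z : ℂ × (Fin k → ℝ) => ‖g (‖z.1‖, z.2)‖ ^ 2)) :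
    MemLp (fun z : ℂ × (Fin k → ℝ) => g (‖z.1‖, z.2)) 2 volume :=
  (memLp_two_iff_integrable_sq_norm (C_meas (G := fun r y => g (r, y)) hg)).2 hi

theorem innerC_eq {F1 F2 : ℝ × (Fin k → ℝ) → ℂ} (c1 : ContinuousOn F1 (Ioi 0 ×ˢ univ))
    (c2 : ContinuousOn F2 (Ioi 0 ×ˢ univ))
    (i1 : Integrable (fun z : ℂ × (Fin k → ℝ) => ‖F1 (‖z.1‖, z.2)‖ ^ 2))
    (i2 : Integrable (fun z : ℂ × (Fin k → ℝ) => ‖F2 (‖z.1‖, z.2)‖ ^ 2)) :
    ∫ x, (starRingEnd ℂ) (ext (fun z => wc z.1 • F1 z) x) * ext (fun z => wc z.1 • F2 z) x =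
      ∫ z : ℂ × (Fin k → ℝ), star (F1 (‖z.1‖, z.2)) * F2 (‖z.1‖, z.2) := by
  have e1 : ∀ x, (starRingEnd ℂ) (ext (fun z => wc z.1 • F1 z) x) *
      ext (fun z => wc z.1 • F2 z) x =
      ext (fun z => (starRingEnd ℂ) (wc z.1 • F1 z) * (wc z.1 • F2 z)) x := by
    intro x
    unfold Pool.Agent.N96.PR.ext
    by_cases h : T x ∈ Ioi (0 : ℝ) ×ˢ (univ : Set (Fin k → ℝ))
    · rw [indicator_of_mem h, indicator_of_mem h, indicator_of_mem h]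
    · rw [indicator_of_notMem h, indicator_of_notMem h, indicator_of_notMem h, mul_zero]
  simp only [e1]
  rw [ext_integral]
  have hi : Integrable (fun z : ℂ × (Fin k → ℝ) =>
      star (F1 (‖z.1‖, z.2)) * F2 (‖z.1‖, z.2)) :=
    (C_memLp c1 i1).star.integrable_mul (C_memLp c2 i2)
  have hc : ContinuousOn (fun z : ℝ × (Fin k → ℝ) => star (F1 z) * F2 z) (Ioi 0 ×ˢ univ) :=
    (continuous_star.comp_continuousOn c1).mul c2
  rw [polC (G := fun r y => star (F1 (r, y)) * F2 (r, y)) hc hi, ← integral_smul]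
  refine integral_congr_ae ?_
  filter_upwards [H_ae k] with z hz
  have h3 := wc_sq hz
  have h4 : (starRingEnd ℂ) (wc z.1 • F1 z) * (wc z.1 • F2 z) =
      (wc z.1 ^ 2) • (star (F1 z) * F2 z) := by
    simp only [Complex.real_smul, map_mul, Complex.conj_ofReal, Complex.star_def]
    push_cast
    ring
  rw [h4, h3, mul_smul]

end Pool.Agent.N96.AX
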