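import Pool.Agent.N96.AX.D

/-! Functions with a given angular momentum about the axis. -/

set_option autoImplicit false

open MeasureTheory Set Filter Topology

namespace Pool.Agent.N96.AX

open Pool.Agent.N96.PR

/-- `|∇u|²` on `ℂ × ℝ^k` -/
noncomputable def gradC {k : ℕ} (u : ℂ × (Fin k → ℝ) → ℂ) (z : ℂ × (Fin k → ℝ)) : ℝ :=
  ‖fderiv ℝ u z (1, 0)‖ ^ 2 + ‖fderiv ℝ u z (Complex.I, 0)‖ ^ 2 +
    ∑ j, ‖fderiv ℝ u z (0, Pi.single j 1)‖ ^ 2

/-- `u` has the angular momentum `l` -/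
def Rot {k : ℕ} (l : ℤ) (u : ℂ × (Fin k → ℝ) → ℂ) : Prop :=
  ∀ (θ : ℝ) x y, u (Complex.exp (θ * Complex.I) * x, y) =
    Complex.exp (l * θ * Complex.I) * u (x, y)

variable {k : ℕ} {l : ℤ} {u v : ℂ × (Fin k → ℝ) → ℂ}

theorem norm_exp_l (l : ℤ) (θ : ℝ) : ‖Complex.exp (l * θ * Complex.I)‖ = 1 := by
  have h := Complex.norm_exp_ofReal_mul_I ((l : ℝ) * θ)
  rw [← h]
  congr 2
  push_cast
  ring

theorem u_polar (hr : Rot l u) (z : ℂ × (Fin k → ℝ)) :
    u z = Complex.exp (l * (Complex.arg z.1 : ℝ) * Complex.I) * u ((‖z.1‖ : ℂ), z.2) := by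
  have h1 := hr (Complex.arg z.1) (‖z.1‖ : ℂ) z.2
  rw [mul_comm (Complex.exp _) (‖z.1‖ : ℂ), Complex.norm_mul_exp_arg_mul_I] at h1
  exact h1

theorem u_norm (hr : Rot l u) (z : ℂ × (Fin k → ℝ)) : ‖u z‖ = ‖u ((‖z.1‖ : ℂ), z.2)‖ := by
  rw [u_polar hr z, norm_mul, norm_exp_l, one_mul]

theorem u_inner (hr : Rot l u) (hv : Rot l v) (z : ℂ × (Fin k → ℝ)) :
    star (u z) * v z = star (u ((‖z.1‖ : ℂ), z.2)) * v ((‖z.1‖ : ℂ), z.2) := by
  rw [u_polar hr z, u_polar hv z, star_mul']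
  have h1 : star (Complex.exp (l * (Complex.arg z.1 : ℝ) * Complex.I)) *
      Complex.exp (l * (Complex.arg z.1 : ℝ) * Complex.I) = 1 := by
    rw [Complex.star_def, ← Complex.normSq_eq_conj_mul_self, Complex.normSq_eq_norm_sq,
      norm_exp_l]
    norm_num
  calc _ = (star (Complex.exp (l * (Complex.arg z.1 : ℝ) * Complex.I)) *
      Complex.exp (l * (Complex.arg z.1 : ℝ) * Complex.I)) *
      (star (u ((‖z.1‖ : ℂ), z.2)) * v ((‖z.1‖ : ℂ), z.2)) := by ring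
    _ = _ := by rw [h1, one_mul]

theorem isOpen_SC : IsOpen {z : ℂ × (Fin k → ℝ) | z.1 ≠ 0} :=
  isOpen_ne_fun continuous_fst continuous_const

theorem diffC (hC : ContDiffOn ℝ 1 u {z | z.1 ≠ 0}) {z : ℂ × (Fin k → ℝ)}
    (hz : z.1 ≠ 0) : DifferentiableAt ℝ u z :=
  (hC.differentiableOn one_ne_zero).differentiableAt (isOpen_SC.mem_nhds hz)

theorem embC_cont : Continuous (fun z : ℝ × (Fin k → ℝ) => ((z.1 : ℂ), z.2)) :=
  (Complex.continuous_ofReal.comp continuous_fst).prodMk continuous_snd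

theorem embC_maps : MapsTo (fun z : ℝ × (Fin k → ℝ) => ((z.1 : ℂ), z.2)) (Ioi 0 ×ˢ univ)
    {z : ℂ × (Fin k → ℝ) | z.1 ≠ 0} := fun _ hz => Complex.ofReal_ne_zero.2 (ne_of_gt hz.1)

/-- the derivative along a ray -/
theorem ray (hC : ContDiffOn ℝ 1 u {z | z.1 ≠ 0}) {a : ℂ} (ha : a ≠ 0) {r : ℝ} (hr : 0 < r)
    (y : Fin k → ℝ) :
    HasDerivAt (fun t : ℝ => u (a * t, y)) (fderiv ℝ u (a * r, y) (a, 0)) r := by
  have h1 := (diffC hC (z := (a * r, y))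
    (mul_ne_zero ha (Complex.ofReal_ne_zero.2 hr.ne'))).hasFDerivAt
  have h2 : HasDerivAt (fun t : ℝ => (a * (t : ℂ), y)) (a, (0 : Fin k → ℝ)) r := by
    have h3 := ((hasDerivAt_id r).ofReal_comp).const_mul a
    simp only [id_eq, Complex.ofReal_one, mul_one] at h3
    exact h3.prodMk (hasDerivAt_const r y)
  exact h1.comp_hasDerivAt r h2

theorem d0C (hC : ContDiffOn ℝ 1 u {z | z.1 ≠ 0}) {r : ℝ} (hr : 0 < r) (y : Fin k → ℝ) :
    HasDerivAt (fun t : ℝ => u ((t : ℂ), y)) (fderiv ℝ u ((r : ℂ), y) (1, 0)) r := by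
  have h := ray hC one_ne_zero hr y
  simpa only [one_mul] using h

theorem djC (hC : ContDiffOn ℝ 1 u {z | z.1 ≠ 0}) {x : ℂ} (hx : x ≠ 0)
    (y : Fin k → ℝ) (j : Fin k) :
    HasLineDerivAt ℝ (fun y => u (x, y)) (fderiv ℝ u (x, y) (0, Pi.single j 1)) y
      (Pi.single j 1) := by
  have h1 : HasFDerivAt u (fderiv ℝ u (x, y)) (x, y + (0 : ℝ) • Pi.single j 1) := by
    rw [zero_smul, add_zero]
    exact (diffC hC (z := (x, y)) hx).hasFDerivAt
  have h2 : HasDerivAt (fun t : ℝ => (x, y + t • (Pi.single j 1 : Fin k → ℝ)))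
      ((0 : ℂ), (Pi.single j 1 : Fin k → ℝ)) 0 := by
    have h3 := ((hasDerivAt_id (0 : ℝ)).smul_const (Pi.single j 1 : Fin k → ℝ)).const_add y
    rw [one_smul] at h3
    exact (hasDerivAt_const (0 : ℝ) x).prodMk h3
  exact h1.comp_hasDerivAt 0 h2

/-- the angular derivative -/
theorem angular (hr : Rot l u) (hC : ContDiffOn ℝ 1 u {z | z.1 ≠ 0}) {x : ℂ} (hx : x ≠ 0)
    (y : Fin k → ℝ) : fderiv ℝ u (x, y) (Complex.I * x, 0) = l * Complex.I * u (x, y) := by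
  have h0 : HasDerivAt (fun θ : ℝ => Complex.exp (θ * Complex.I)) Complex.I 0 := by
    have h1 : HasDerivAt (fun θ : ℝ => (θ : ℂ) * Complex.I) Complex.I 0 := by
      have := ((hasDerivAt_id (0 : ℝ)).ofReal_comp).mul_const Complex.I
      simpa using this
    have h2 := h1.cexp
    simpa using h2
  have h1 : HasDerivAt (fun θ : ℝ => (Complex.exp (θ * Complex.I) * x, y))
      (Complex.I * x, (0 : Fin k → ℝ)) 0 := (h0.mul_const x).prodMk (hasDerivAt_const 0 y)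
  have h2 : HasFDerivAt u (fderiv ℝ u (x, y)) (Complex.exp (((0 : ℝ) : ℂ) * Complex.I) * x, y) := by
    simp only [Complex.ofReal_zero, zero_mul, Complex.exp_zero, one_mul]
    exact (diffC hC (z := (x, y)) hx).hasFDerivAt
  have h3 := h2.comp_hasDerivAt 0 h1
  have h4 : HasDerivAt (fun θ : ℝ => Complex.exp (l * θ * Complex.I) * u (x, y))
      (l * Complex.I * u (x, y)) 0 := by
    have h5 : HasDerivAt (fun θ : ℝ => (l : ℂ) * (θ : ℂ) * Complex.I) (l * Complex.I) 0 := by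
      have := (((hasDerivAt_id (0 : ℝ)).ofReal_comp).const_mul (l : ℂ)).mul_const Complex.I
      simpa using this
    have h6 := h5.cexp.mul_const (u (x, y))
    simpa using h6
  have h7 : (u ∘ fun θ : ℝ => (Complex.exp (θ * Complex.I) * x, y)) =
      fun θ : ℝ => Complex.exp (l * θ * Complex.I) * u (x, y) := funext fun θ => hr θ x y
  rw [h7] at h3
  exact h3.unique h4

theorem lin_norm (M : ℂ →L[ℝ] ℂ) {a : ℂ} (ha : ‖a‖ = 1) :
    ‖M 1‖ ^ 2 + ‖M Complex.I‖ ^ 2 = ‖M a‖ ^ 2 + ‖M (Complex.I * a)‖ ^ 2 := by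
  have h1 : M a = a.re • M 1 + a.im • M Complex.I := by
    rw [← map_smul, ← map_smul, ← map_add]
    congr 1
    apply Complex.ext <;> simp
  have h2 : M (Complex.I * a) = (-a.im) • M 1 + a.re • M Complex.I := by
    rw [← map_smul, ← map_smul, ← map_add]
    congr 1
    apply Complex.ext <;> simp
  have h3 : a.re ^ 2 + a.im ^ 2 = 1 := by
    have h4 := Complex.sq_norm a
    rw [ha, Complex.normSq_apply] at h4
    nlinarith
  rw [h1, h2, norm_add_sq_real, norm_add_sq_real, norm_smul, norm_smul, norm_smul, norm_smul,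
    mul_pow, mul_pow, mul_pow, mul_pow, Real.norm_eq_abs, Real.norm_eq_abs, Real.norm_eq_abs,
    sq_abs, sq_abs, sq_abs, inner_smul_left, inner_smul_right, inner_smul_left, inner_smul_right]
  simp only [conj_trivial]
  have h5 : ‖M 1‖ ^ 2 + ‖M Complex.I‖ ^ 2 =
      (a.re ^ 2 + a.im ^ 2) * (‖M 1‖ ^ 2 + ‖M Complex.I‖ ^ 2) := by rw [h3, one_mul]
  rw [h5]
  ring

theorem gradC_eq (hr : Rot l u) (hC : ContDiffOn ℝ 1 u {z | z.1 ≠ 0}) {x : ℂ} (hx : x ≠ 0)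
    (y : Fin k → ℝ) :
    gradC u (x, y) = (‖fderiv ℝ u ((‖x‖ : ℂ), y) (1, 0)‖ ^ 2 +
      (l : ℝ) ^ 2 * (‖u ((‖x‖ : ℂ), y)‖ ^ 2 / ‖x‖ ^ 2)) +
      ∑ j, ‖fderiv ℝ u ((‖x‖ : ℂ), y) (0, Pi.single j 1)‖ ^ 2 := by
  have hn : 0 < ‖x‖ := norm_pos_iff.2 hx
  have hn' : (‖x‖ : ℂ) ≠ 0 := Complex.ofReal_ne_zero.2 hn.ne'
  set a : ℂ := Complex.exp ((Complex.arg x : ℝ) * Complex.I) with ha
  set e : ℂ := Complex.exp (l * (Complex.arg x : ℝ) * Complex.I) with he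
  have hna : ‖a‖ = 1 := Complex.norm_exp_ofReal_mul_I _
  have hne : ‖e‖ = 1 := norm_exp_l l _
  have hax : a * (‖x‖ : ℂ) = x := by
    rw [mul_comm, ha, Complex.norm_mul_exp_arg_mul_I]
  have ha0 : a ≠ 0 := by
    intro h
    rw [h, norm_zero] at hna
    exact zero_ne_one hna
  -- the radial derivative
  have h1 : ‖fderiv ℝ u (x, y) (a, 0)‖ = ‖fderiv ℝ u ((‖x‖ : ℂ), y) (1, 0)‖ := by
    have r1 := ray hC ha0 hn y
    have r2 := (d0C hC hn y).const_mul e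
    have r3 : (fun t : ℝ => u (a * t, y)) = fun t : ℝ => e * u ((t : ℂ), y) :=
      funext fun t => hr _ _ _
    rw [r3] at r1
    have r4 := r1.unique r2
    rw [hax] at r4
    rw [r4, norm_mul, hne, one_mul]
  -- the angular derivative
  have h2 : ‖fderiv ℝ u (x, y) (Complex.I * a, 0)‖ ^ 2 =
      (l : ℝ) ^ 2 * (‖u ((‖x‖ : ℂ), y)‖ ^ 2 / ‖x‖ ^ 2) := by
    have r1 := angular hr hC hx y
    have r2 : (Complex.I * x, (0 : Fin k → ℝ)) = ‖x‖ • (Complex.I * a, (0 : Fin k → ℝ)) := by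
      rw [Prod.smul_mk, smul_zero, Complex.real_smul]
      congr 1
      conv_lhs => rw [← hax]
      ring
    rw [r2, map_smul] at r1
    have r3 : ‖x‖ * ‖fderiv ℝ u (x, y) (Complex.I * a, 0)‖ = |(l : ℝ)| * ‖u ((‖x‖ : ℂ), y)‖ := by
      have r4 := congrArg norm r1
      rw [norm_smul, Real.norm_of_nonneg hn.le, norm_mul, norm_mul, Complex.norm_I, mul_one,
        u_norm hr (x, y), Complex.norm_intCast] at r4
      exact r4
    have r5 : (‖x‖ * ‖fderiv ℝ u (x, y) (Complex.I * a, 0)‖) ^ 2 =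
        (|(l : ℝ)| * ‖u ((‖x‖ : ℂ), y)‖) ^ 2 := by rw [r3]
    rw [mul_pow, mul_pow, sq_abs] at r5
    rw [← mul_div_assoc, eq_div_iff (by positivity), ← r5]
    ring
  have h3 : ∀ j, ‖fderiv ℝ u (x, y) (0, Pi.single j 1)‖ =
      ‖fderiv ℝ u ((‖x‖ : ℂ), y) (0, Pi.single j 1)‖ := by
    intro j
    have r1 : HasDerivAt (fun t : ℝ => u (x, y + t • Pi.single j 1))
        (fderiv ℝ u (x, y) (0, Pi.single j 1)) 0 := djC hC hx y j
    have r2 : HasDerivAt (fun t : ℝ => u ((‖x‖ : ℂ), y + t • Pi.single j 1))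
        (fderiv ℝ u ((‖x‖ : ℂ), y) (0, Pi.single j 1)) 0 := djC hC hn' y j
    have r3 : (fun t : ℝ => u (x, y + t • Pi.single j 1)) =
        fun t : ℝ => e * u ((‖x‖ : ℂ), y + t • Pi.single j 1) := by
      funext t
      have := hr (Complex.arg x) (‖x‖ : ℂ) (y + t • Pi.single j 1)
      rw [← ha, hax] at this
      exact this
    rw [r3] at r1
    have r4 := r1.unique (r2.const_mul e)
    rw [r4, norm_mul, hne, one_mul]
  have h4 := lin_norm ((fderiv ℝ u (x, y)).comp (ContinuousLinearMap.inl ℝ ℂ (Fin k → ℝ))) hna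
  simp only [ContinuousLinearMap.comp_apply, ContinuousLinearMap.inl_apply] at h4
  unfold gradC
  rw [h4, h1, h2, Finset.sum_congr rfl fun j _ => by rw [h3 j]]

end Pool.Agent.N96.AX
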