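import Pool.Agent.N96.AX.E

/-! The kinetic inequality for one channel. -/

set_option autoImplicit false

open MeasureTheory Set Filter Topology

namespace Pool.Agent.N96.AX

open Pool.Agent.N96.PR

variable {k : ℕ} {l : ℤ} {u v : ℂ × (Fin k → ℝ) → ℂ}

theorem mkProfC (hr : Rot l u) (hC : ContDiffOn ℝ 1 u {z | z.1 ≠ 0})
    (h2 : Integrable (fun z => ‖u z‖ ^ 2)) (he : Integrable (gradC u)) :
    ProfC k ((l : ℝ) ^ 2) (fun z => u ((z.1 : ℂ), z.2)) (fun z => fderiv ℝ u ((z.1 : ℂ), z.2) (1, 0))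
      (fun j z => fderiv ℝ u ((z.1 : ℂ), z.2) (0, Pi.single j 1)) ∧
    ∫ z, gradC u z = (∫ z : ℂ × (Fin k → ℝ),
        (‖fderiv ℝ u ((‖z.1‖ : ℂ), z.2) (1, 0)‖ ^ 2 +
          (l : ℝ) ^ 2 * (‖u ((‖z.1‖ : ℂ), z.2)‖ ^ 2 / ‖z.1‖ ^ 2))) +
      ∑ j : Fin k, ∫ z : ℂ × (Fin k → ℝ),
        ‖fderiv ℝ u ((‖z.1‖ : ℂ), z.2) (0, Pi.single j 1)‖ ^ 2 := by
  have cu : ContinuousOn (fderiv ℝ u) {z | z.1 ≠ 0} :=
    hC.continuousOn_fderiv_of_isOpen isOpen_SC le_rfl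
  have cu' : ContinuousOn (fun z : ℝ × (Fin k → ℝ) => fderiv ℝ u ((z.1 : ℂ), z.2))
      (Ioi 0 ×ˢ univ) := cu.comp embC_cont.continuousOn embC_maps
  have c0 : ContinuousOn (fun z : ℝ × (Fin k → ℝ) => fderiv ℝ u ((z.1 : ℂ), z.2) (1, 0))
      (Ioi 0 ×ˢ univ) := cu'.clm_apply continuousOn_const
  have cj : ∀ j : Fin k, ContinuousOn (fun z : ℝ × (Fin k → ℝ) =>
      fderiv ℝ u ((z.1 : ℂ), z.2) (0, Pi.single j 1)) (Ioi 0 ×ˢ univ) :=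
    fun j => cu'.clm_apply continuousOn_const
  have cf : ContinuousOn (fun z : ℝ × (Fin k → ℝ) => u ((z.1 : ℂ), z.2)) (Ioi 0 ×ˢ univ) :=
    hC.continuousOn.comp embC_cont.continuousOn embC_maps
  have cq : ContinuousOn (fun z : ℝ × (Fin k → ℝ) => ‖fderiv ℝ u ((z.1 : ℂ), z.2) (1, 0)‖ ^ 2 +
      (l : ℝ) ^ 2 * (‖u ((z.1 : ℂ), z.2)‖ ^ 2 / z.1 ^ 2)) (Ioi 0 ×ˢ univ) := by
    refine (c0.norm.pow 2).add (continuousOn_const.mul ((cf.norm.pow 2).div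
      (continuous_fst.pow 2).continuousOn fun z hz => ?_))
    have : (0 : ℝ) < z.1 := hz.1
    positivity
  have hg : gradC u =ᵐ[volume] fun z => (‖fderiv ℝ u ((‖z.1‖ : ℂ), z.2) (1, 0)‖ ^ 2 +
      (l : ℝ) ^ 2 * (‖u ((‖z.1‖ : ℂ), z.2)‖ ^ 2 / ‖z.1‖ ^ 2)) +
      ∑ j, ‖fderiv ℝ u ((‖z.1‖ : ℂ), z.2) (0, Pi.single j 1)‖ ^ 2 := by
    filter_upwards [C_ae] with z hz
    exact gradC_eq hr hC hz z.2
  have he' := he.congr hg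
  have i0 : Integrable (fun z : ℂ × (Fin k → ℝ) =>
      ‖fderiv ℝ u ((‖z.1‖ : ℂ), z.2) (1, 0)‖ ^ 2 +
      (l : ℝ) ^ 2 * (‖u ((‖z.1‖ : ℂ), z.2)‖ ^ 2 / ‖z.1‖ ^ 2)) := by
    refine Integrable.mono' he' (C_meas (G := fun r y => ‖fderiv ℝ u ((r : ℂ), y) (1, 0)‖ ^ 2 +
      (l : ℝ) ^ 2 * (‖u ((r : ℂ), y)‖ ^ 2 / r ^ 2)) cq) (Eventually.of_forall fun z => ?_)
    rw [Real.norm_of_nonneg (by positivity)]
    exact le_add_of_nonneg_right (Finset.sum_nonneg fun j _ => sq_nonneg _)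
  have ij : ∀ j : Fin k, Integrable (fun z : ℂ × (Fin k → ℝ) =>
      ‖fderiv ℝ u ((‖z.1‖ : ℂ), z.2) (0, Pi.single j 1)‖ ^ 2) := by
    intro j
    refine Integrable.mono' he' (C_meas
      (G := fun r y => ‖fderiv ℝ u ((r : ℂ), y) (0, Pi.single j 1)‖ ^ 2)
      ((cj j).norm.pow 2)) (Eventually.of_forall fun z => ?_)
    rw [Real.norm_of_nonneg (sq_nonneg _)]
    have h1 := Finset.single_le_sum (f := fun j : Fin k =>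
      ‖fderiv ℝ u ((‖z.1‖ : ℂ), z.2) (0, Pi.single j 1)‖ ^ 2) (fun j _ => sq_nonneg _)
      (Finset.mem_univ j)
    have h2 : 0 ≤ ‖fderiv ℝ u ((‖z.1‖ : ℂ), z.2) (1, 0)‖ ^ 2 +
      (l : ℝ) ^ 2 * (‖u ((‖z.1‖ : ℂ), z.2)‖ ^ 2 / ‖z.1‖ ^ 2) := by positivity
    linarith
  refine ⟨⟨fun r hr' y => d0C hC hr' y,
    fun r hr' y j => djC hC (Complex.ofReal_ne_zero.2 hr'.ne') y j,
    cf, c0, cj, ?_, i0, ij⟩, ?_⟩
  · refine h2.congr (Eventually.of_forall fun z => ?_)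
    show ‖u z‖ ^ 2 = ‖u ((‖z.1‖ : ℂ), z.2)‖ ^ 2
    rw [u_norm hr z]
  · rw [integral_congr_ae hg, integral_add i0 (integrable_finsetSum _ fun j _ => ij j),
      integral_finsetSum _ fun j _ => ij j]

/-- one channel -/
theorem channel {N : ℕ} (hl : l ≠ 0) (u : Fin N → ℂ × (Fin k → ℝ) → ℂ)
    (hr : ∀ n, Rot l (u n)) (hC : ∀ n, ContDiffOn ℝ 1 (u n) {z | z.1 ≠ 0})
    (h2 : ∀ n, Integrable (fun z => ‖u n z‖ ^ 2)) (he : ∀ n, Integrable (gradC (u n)))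
    (ho : ∀ n m, ∫ z, star (u n z) * u m z = if n = m then (1 : ℂ) else 0) :
    Integrable (fun z => (∑ n, ‖u n z‖ ^ 2) ^ (1 + 2 / ((1 + (k + 1) : ℕ) : ℝ))) ∧
    KC (k + 1) (2 * Real.pi) (K1 (k + 1)) ((l : ℝ) ^ 2 - 1 / 4) *
      ∫ z, (∑ n, ‖u n z‖ ^ 2) ^ (1 + 2 / ((1 + (k + 1) : ℕ) : ℝ)) ≤
      ∑ n, ∫ z, gradC (u n) z := by
  have hl1 : (1 : ℝ) ≤ (l : ℝ) ^ 2 := by
    have h1 : (1 : ℤ) ≤ l ^ 2 := by
      have : 0 < l ^ 2 := by positivity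
      omega
    exact_mod_cast h1
  have hp := fun n => mkProfC (hr n) (hC n) (h2 n) (he n)
  have hs := systemC (lam := (l : ℝ) ^ 2) (by linarith) (fun n z => u n ((z.1 : ℂ), z.2))
    (fun n z => fderiv ℝ (u n) ((z.1 : ℂ), z.2) (1, 0))
    (fun n j z => fderiv ℝ (u n) ((z.1 : ℂ), z.2) (0, Pi.single j 1)) (fun n => (hp n).1)
    (fun n m => by
      rw [← ho n m]
      refine integral_congr_ae (Eventually.of_forall fun z => ?_)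
      exact (u_inner (hr n) (hr m) z).symm)
  have e : (fun z : ℂ × (Fin k → ℝ) =>
      (∑ n, ‖u n z‖ ^ 2) ^ (1 + 2 / ((1 + (k + 1) : ℕ) : ℝ))) =
      fun z => (∑ n, ‖u n ((‖z.1‖ : ℂ), z.2)‖ ^ 2) ^ (1 + 2 / ((1 + (k + 1) : ℕ) : ℝ)) := by
    funext z
    congr 1
    exact Finset.sum_congr rfl fun n _ => by rw [u_norm (hr n) z]
  rw [e, Finset.sum_congr rfl fun n _ => (hp n).2]
  exact hs

/-- one channel, with a general index set -/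
theorem channel' {ι : Type} [Fintype ι] [DecidableEq ι] (hl : l ≠ 0)
    (u : ι → ℂ × (Fin k → ℝ) → ℂ)
    (hr : ∀ n, Rot l (u n)) (hC : ∀ n, ContDiffOn ℝ 1 (u n) {z | z.1 ≠ 0})
    (h2 : ∀ n, Integrable (fun z => ‖u n z‖ ^ 2)) (he : ∀ n, Integrable (gradC (u n)))
    (ho : ∀ n m, ∫ z, star (u n z) * u m z = if n = m then (1 : ℂ) else 0) :
    Integrable (fun z => (∑ n, ‖u n z‖ ^ 2) ^ (1 + 2 / ((1 + (k + 1) : ℕ) : ℝ))) ∧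
    KC (k + 1) (2 * Real.pi) (K1 (k + 1)) ((l : ℝ) ^ 2 - 1 / 4) *
      ∫ z, (∑ n, ‖u n z‖ ^ 2) ^ (1 + 2 / ((1 + (k + 1) : ℕ) : ℝ)) ≤
      ∑ n, ∫ z, gradC (u n) z := by
  have e := (Fintype.equivFin ι).symm
  have h := channel hl (fun n => u (e n)) (fun n => hr _) (fun n => hC _) (fun n => h2 _)
    (fun n => he _) (fun n m => by
      rw [ho]
      simp only [e.injective.eq_iff])
  have h1 : ∀ z, ∑ n, ‖u (e n) z‖ ^ 2 = ∑ n, ‖u n z‖ ^ 2 := fun z =>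
    e.sum_comp (fun n => ‖u n z‖ ^ 2)
  have h3 : ∑ n, ∫ z, gradC (u (e n)) z = ∑ n, ∫ z, gradC (u n) z :=
    e.sum_comp (fun n => ∫ z, gradC (u n) z)
  simp only [h1] at h
  rw [h3] at h
  exact h

end Pool.Agent.N96.AX
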