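import Pool.Agent.N96.AX.F
import Pool.Agent.N96.PR.J

/-! Systems with several channels. -/

set_option autoImplicit false

open MeasureTheory Set Filter Topology

namespace Pool.Agent.N96.AX

open Pool.Agent.N96.PR
open Pool.Agent.R117.RL (Kcl Kcl_pow Ga Ga_pos Ga_three pow_frac)

theorem bb_ratio : ∀ n : ℕ, 4 * Real.pi / 3 ≤ bb (1 + (n + 1)) / bb (n + 1)
  | 0 => by
      have hπ := Real.pi_pos
      show 4 * Real.pi / 3 ≤ bb 2 / bb 1
      rw [bb_two, bb_one]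
      apply le_of_eq
      field_simp
      norm_num
  | 1 => by
      have hπ := Real.pi_pos
      have hπ2 := Real.pi_lt_d2
      show 4 * Real.pi / 3 ≤ bb 3 / bb 2
      rw [bb_two]
      unfold bb
      rw [Ga_three, mul_pow, Real.sq_sqrt hπ.le]
      push_cast
      rw [div_div, div_le_div_iff₀ (by norm_num) (by positivity)]
      nlinarith
  | (n + 2) => (bb_ratio n).trans (R_step 1 (n + 1))

theorem const_le {n : ℕ} (hn : 0 < n) {c : ℝ} (hc : 0 < c) :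
    Kcl (1 + n) ^ (1 + n) * (Real.pi ^ 2 * c) ≤ KC n (2 * Real.pi) (K1 n) c ^ (1 + n) := by
  have hπ := Real.pi_pos
  have hn' : (0 : ℝ) < n := by exact_mod_cast hn
  have hd' : (0 : ℝ) < ((1 + n : ℕ) : ℝ) := by positivity
  have g1 := Ga_pos n
  have g2 := Ga_pos (1 + n)
  have b1 := bb_pos n
  have b2 := bb_pos (1 + n)
  have hr : 4 * Real.pi / 3 ≤ bb (1 + n) / bb n := by
    obtain ⟨m, rfl⟩ : ∃ m, n = m + 1 := ⟨n - 1, by omega⟩
    exact bb_ratio m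
  rw [KC_pow hn (K1_pos hn) (by positivity) hc, mul_pow _ (K1 n), K1_pow hn, Kcl_pow hn,
    Kcl_pow (by omega)]
  have e1 : Ga (1 + n) ^ 2 = (((1 + n : ℕ) : ℝ) + 2) ^ (1 + n) / bb (1 + n) := by
    unfold bb
    field_simp
  have e2 : Ga n ^ 2 = ((n : ℝ) + 2) ^ n / bb n := by
    unfold bb
    field_simp
  rw [e1, e2]
  generalize ((1 + n : ℕ) : ℝ) = D at *
  have h1 : (D / (D + 2)) ^ (1 + n) * 4 ^ (1 + n) * Real.pi ^ (1 + n) *
      ((D + 2) ^ (1 + n) / bb (1 + n)) * (Real.pi ^ 2 * c) =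
      (D ^ (1 + n) * 4 ^ (1 + n) * Real.pi ^ (n + 2) * c) * (Real.pi / bb (1 + n)) := by
    rw [div_pow, pow_add Real.pi n 2, pow_add Real.pi 1 n]
    have : (D + 2) ^ (1 + n) ≠ 0 := by positivity
    field_simp
  have h2 : (D / (n : ℝ)) ^ n * (3 / 4 * (((n : ℝ) / (n + 2)) ^ n * 4 ^ n * Real.pi ^ n *
      (((n : ℝ) + 2) ^ n / bb n))) * (D * c) ^ 1 * (2 * Real.pi) ^ 2 =
      (D ^ (1 + n) * 4 ^ (1 + n) * Real.pi ^ (n + 2) * c) * (3 / (4 * bb n)) := by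
    rw [div_pow, div_pow, pow_add Real.pi n 2, pow_add D 1 n, pow_add (4 : ℝ) 1 n]
    field_simp
    ring
  rw [h1, h2]
  refine mul_le_mul_of_nonneg_left ?_ (by positivity)
  rw [div_le_div_iff₀ b2 (by positivity)]
  rw [div_le_div_iff₀ (by norm_num) b1] at hr
  linarith

theorem holder {L : Finset ℤ} (hL : L.Nonempty) (w ρ : ℤ → ℝ) (hw : ∀ l ∈ L, 0 < w l)
    (hρ : ∀ l ∈ L, 0 ≤ ρ l) {p : ℝ} (hp : 1 ≤ p) :
    (∑ l ∈ L, ρ l) ^ p ≤ ∑ l ∈ L, ((∑ l ∈ L, w l) / w l) ^ (p - 1) * ρ l ^ p := by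
  have hW : 0 < ∑ l ∈ L, w l := Finset.sum_pos hw hL
  set W := ∑ l ∈ L, w l with hWd
  have h := Real.rpow_arith_mean_le_arith_mean_rpow L (fun l => w l / W)
    (fun l => ρ l * (W / w l)) (fun l hl => (div_pos (hw l hl) hW).le)
    (by rw [← Finset.sum_div]; exact div_self hW.ne')
    (fun l hl => mul_nonneg (hρ l hl) (div_pos hW (hw l hl)).le) hp
  have e1 : ∑ l ∈ L, w l / W * (ρ l * (W / w l)) = ∑ l ∈ L, ρ l := by
    refine Finset.sum_congr rfl fun l hl => ?_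
    have := hw l hl
    field_simp
  have e2 : ∑ l ∈ L, w l / W * (ρ l * (W / w l)) ^ p =
      ∑ l ∈ L, (W / w l) ^ (p - 1) * ρ l ^ p := by
    refine Finset.sum_congr rfl fun l hl => ?_
    have h1 := hw l hl
    have h2 : 0 < W / w l := div_pos hW h1
    rw [Real.mul_rpow (hρ l hl) h2.le, Real.rpow_sub_one h2.ne']
    field_simp
  rw [e1, e2] at h
  exact h

/-- the weight of a channel -/
noncomputable def wt (l : ℤ) : ℝ := 1 / √((l : ℝ) ^ 2 - 1 / 4)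

theorem cl_pos {l : ℤ} (hl : l ≠ 0) : 0 < (l : ℝ) ^ 2 - 1 / 4 := by
  have h1 : (1 : ℤ) ≤ l ^ 2 := by
    have : 0 < l ^ 2 := by positivity
    omega
  have : (1 : ℝ) ≤ (l : ℝ) ^ 2 := by exact_mod_cast h1
  linarith

theorem wt_pos {l : ℤ} (hl : l ≠ 0) : 0 < wt l := by
  have := cl_pos hl
  unfold wt
  positivity

theorem channels {k N : ℕ} {L : Finset ℤ} (hL : L.Nonempty) (h0 : (0 : ℤ) ∉ L) (ℓ : Fin N → ℤ)
    (hℓ : ∀ n, ℓ n ∈ L) (u : Fin N → ℂ × (Fin k → ℝ) → ℂ)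
    (hr : ∀ n, Rot (ℓ n) (u n)) (hC : ∀ n, ContDiffOn ℝ 1 (u n) {z | z.1 ≠ 0})
    (h2 : ∀ n, Integrable (fun z => ‖u n z‖ ^ 2)) (he : ∀ n, Integrable (gradC (u n)))
    (ho : ∀ n m, ∫ z, star (u n z) * u m z = if n = m then (1 : ℂ) else 0) :
    Integrable (fun z => (∑ n, ‖u n z‖ ^ 2) ^ (1 + 2 / ((1 + (k + 1) : ℕ) : ℝ))) ∧
    (Real.pi / ∑ l ∈ L, wt l) ^ (2 / ((1 + (k + 1) : ℕ) : ℝ)) * Kcl (1 + (k + 1)) *
      ∫ z, (∑ n, ‖u n z‖ ^ 2) ^ (1 + 2 / ((1 + (k + 1) : ℕ) : ℝ)) ≤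
      ∑ n, ∫ z, gradC (u n) z := by
  have hne : ∀ l ∈ L, l ≠ 0 := fun l hl h => h0 (h ▸ hl)
  have hd : 0 < 1 + (k + 1) := by omega
  have hd' : (0 : ℝ) < ((1 + (k + 1) : ℕ) : ℝ) := by positivity
  set p : ℝ := 1 + 2 / ((1 + (k + 1) : ℕ) : ℝ) with hp
  have hp1 : 1 ≤ p := by
    have : 0 ≤ 2 / ((1 + (k + 1) : ℕ) : ℝ) := by positivity
    linarith
  have hpe : p - 1 = 2 / ((1 + (k + 1) : ℕ) : ℝ) := by rw [hp]; ring
  have hch := fun (l : ℤ) (hl : l ∈ L) => channel' (ι := {n // ℓ n = l}) (hne l hl)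
    (fun n => u n.1) (fun n => by have := hr n.1; rw [n.2] at this; exact this)
    (fun n => hC _) (fun n => h2 _) (fun n => he _)
    (fun n m => by
      rw [ho]
      simp only [Subtype.ext_iff])
  -- the sums over the channels
  have hfib : ∀ g : Fin N → ℝ, ∑ l ∈ L, ∑ n : {n // ℓ n = l}, g n.1 = ∑ n, g n := by
    intro g
    rw [← Finset.sum_fiberwise_of_maps_to (s := Finset.univ) (t := L) (g := ℓ)
      (fun n _ => hℓ n) g]
    refine Finset.sum_congr rfl fun l _ => ?_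
    exact (Finset.sum_subtype (Finset.univ.filter fun n => ℓ n = l) (fun n => by simp) g).symm
  set ρ : ℤ → ℂ × (Fin k → ℝ) → ℝ := fun l z => ∑ n : {n // ℓ n = l}, ‖u n.1 z‖ ^ 2 with hρ
  have hρ0 : ∀ l z, 0 ≤ ρ l z := fun l z => Finset.sum_nonneg fun n _ => sq_nonneg _
  have hsum : ∀ z, ∑ n, ‖u n z‖ ^ 2 = ∑ l ∈ L, ρ l z := fun z =>
    (hfib (fun n => ‖u n z‖ ^ 2)).symm
  have hI : ∀ l ∈ L, Integrable (fun z => ρ l z ^ p) := fun l hl => (hch l hl).1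
  have hK : ∀ l ∈ L, KC (k + 1) (2 * Real.pi) (K1 (k + 1)) ((l : ℝ) ^ 2 - 1 / 4) *
      ∫ z, ρ l z ^ p ≤ ∑ n : {n // ℓ n = l}, ∫ z, gradC (u n.1) z := fun l hl => (hch l hl).2
  have hπ := Real.pi_pos
  have hW : 0 < ∑ l ∈ L, wt l := Finset.sum_pos (fun l hl => wt_pos (hne l hl)) hL
  set W := ∑ l ∈ L, wt l with hWd
  have hpt : ∀ z, (∑ n, ‖u n z‖ ^ 2) ^ p ≤ ∑ l ∈ L, (W / wt l) ^ (p - 1) * ρ l z ^ p := by
    intro z
    rw [hsum]
    exact holder hL wt (fun l => ρ l z) (fun l hl => wt_pos (hne l hl)) (fun l _ => hρ0 l z) hp1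
  have hRi : Integrable (fun z => ∑ l ∈ L, (W / wt l) ^ (p - 1) * ρ l z ^ p) :=
    integrable_finsetSum _ fun l hl => (hI l hl).const_mul _
  have hint : Integrable (fun z => (∑ n, ‖u n z‖ ^ 2) ^ p) := by
    have hm : AEMeasurable (fun z => ∑ n, ‖u n z‖ ^ 2) volume :=
      (integrable_finsetSum _ fun n _ => h2 n).aestronglyMeasurable.aemeasurable
    refine Integrable.mono' hRi (hm.pow_const p).aestronglyMeasurable
      (Eventually.of_forall fun z => ?_)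
    rw [Real.norm_of_nonneg (Real.rpow_nonneg (Finset.sum_nonneg fun n _ => sq_nonneg _) _)]
    exact hpt z
  refine ⟨hint, ?_⟩
  have hKcl : 0 < Kcl (1 + (k + 1)) := Kcl_pos hd
  have hKle : ∀ l ∈ L, (Real.pi / W) ^ (2 / ((1 + (k + 1) : ℕ) : ℝ)) * Kcl (1 + (k + 1)) *
      (W / wt l) ^ (p - 1) ≤ KC (k + 1) (2 * Real.pi) (K1 (k + 1)) ((l : ℝ) ^ 2 - 1 / 4) := by
    intro l hl
    have hc := cl_pos (hne l hl)
    have hw := wt_pos (hne l hl)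
    have e1 : (Real.pi / W) ^ (2 / ((1 + (k + 1) : ℕ) : ℝ)) * Kcl (1 + (k + 1)) *
        (W / wt l) ^ (p - 1) =
        Kcl (1 + (k + 1)) * (Real.pi / wt l) ^ (2 / ((1 + (k + 1) : ℕ) : ℝ)) := by
      rw [hpe]
      have : Real.pi / wt l = Real.pi / W * (W / wt l) := by field_simp
      rw [this, Real.mul_rpow (by positivity) (by positivity)]
      ring
    rw [e1]
    refine le_of_pow_le_pow_left₀ hd.ne'
      (KC_pos (Nat.succ_pos k) (K1_pos (Nat.succ_pos k)) (by positivity) hc).le ?_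
    have e2 := pow_frac (x := Real.pi / wt l) (by positivity) hd 2
    rw [Nat.cast_ofNat] at e2
    have e3 : (Real.pi / wt l) ^ 2 = Real.pi ^ 2 * ((l : ℝ) ^ 2 - 1 / 4) := by
      unfold wt
      rw [div_div_eq_mul_div, div_one, mul_pow, Real.sq_sqrt hc.le]
    rw [mul_pow, e2, e3]
    exact const_le (Nat.succ_pos k) hc
  calc (Real.pi / W) ^ (2 / ((1 + (k + 1) : ℕ) : ℝ)) * Kcl (1 + (k + 1)) *
      ∫ z, (∑ n, ‖u n z‖ ^ 2) ^ p
      ≤ (Real.pi / W) ^ (2 / ((1 + (k + 1) : ℕ) : ℝ)) * Kcl (1 + (k + 1)) *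
        ∫ z, ∑ l ∈ L, (W / wt l) ^ (p - 1) * ρ l z ^ p :=
        mul_le_mul_of_nonneg_left (integral_mono hint hRi hpt) (by positivity)
    _ = ∑ l ∈ L, (Real.pi / W) ^ (2 / ((1 + (k + 1) : ℕ) : ℝ)) * Kcl (1 + (k + 1)) *
        (W / wt l) ^ (p - 1) * ∫ z, ρ l z ^ p := by
        rw [integral_finsetSum _ fun l hl => (hI l hl).const_mul _, Finset.mul_sum]
        refine Finset.sum_congr rfl fun l _ => ?_
        rw [integral_const_mul]
        ring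
    _ ≤ ∑ l ∈ L, KC (k + 1) (2 * Real.pi) (K1 (k + 1)) ((l : ℝ) ^ 2 - 1 / 4) *
        ∫ z, ρ l z ^ p := by
        refine Finset.sum_le_sum fun l hl => ?_
        exact mul_le_mul_of_nonneg_right (hKle l hl)
          (integral_nonneg fun z => Real.rpow_nonneg (hρ0 l z) _)
    _ ≤ ∑ l ∈ L, ∑ n : {n // ℓ n = l}, ∫ z, gradC (u n.1) z :=
        Finset.sum_le_sum fun l hl => hK l hl
    _ = _ := hfib (fun n => ∫ z, gradC (u n) z)

end Pool.Agent.N96.AX
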