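import Pool.Agent.N96.AX.G

/-! The inequality for one channel on the half space. -/

set_option autoImplicit false

open MeasureTheory Set Filter Topology

namespace Pool.Agent.N96.AX

open Pool.Agent.N96.PR
open LTd (pd WGradC)

theorem chanH {k N : ℕ} {lam : ℝ} (hlam : 1 / 4 < lam) (F F0 : Fin N → ℝ × (Fin k → ℝ) → ℂ)
    (Fj : Fin N → Fin k → ℝ × (Fin k → ℝ) → ℂ) (h : ∀ n, ProfC k lam (F n) (F0 n) (Fj n))
    (ho : ∀ n m, ∫ z : ℂ × (Fin k → ℝ), star (F n (‖z.1‖, z.2)) * F m (‖z.1‖, z.2) =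
      if n = m then (1 : ℂ) else 0) :
    Integrable (fun z => (2 * Real.pi * z.1 ^ 1 * ∑ n, ‖F n z‖ ^ 2) ^
      (1 + 2 / ((k + 1 : ℕ) : ℝ))) (H k) ∧
    Integrable (fun z => (lam - 1 / 4) * ((2 * Real.pi * z.1 ^ 1 * ∑ n, ‖F n z‖ ^ 2) / z.1 ^ 2))
      (H k) ∧
    K1 (k + 1) * ∫ z, (2 * Real.pi * z.1 ^ 1 * ∑ n, ‖F n z‖ ^ 2) ^
      (1 + 2 / ((k + 1 : ℕ) : ℝ)) ∂(H k) +
    ∫ z, (lam - 1 / 4) * ((2 * Real.pi * z.1 ^ 1 * ∑ n, ‖F n z‖ ^ 2) / z.1 ^ 2) ∂(H k) ≤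
      ∑ n, ((∫ z : ℂ × (Fin k → ℝ), (‖F0 n (‖z.1‖, z.2)‖ ^ 2 +
          lam * (‖F n (‖z.1‖, z.2)‖ ^ 2 / ‖z.1‖ ^ 2))) +
        ∑ j, ∫ z : ℂ × (Fin k → ℝ), ‖Fj n j (‖z.1‖, z.2)‖ ^ 2) := by
  have hl0 : 0 ≤ lam := by linarith
  set α : ℝ := (1 : ℝ) / 2 with hαd
  have hα : 0 < α := by rw [hαd]; norm_num
  have hc0 : 0 < α ^ 2 - α + lam := by rw [hαd]; norm_num; linarith
  have hceq : α ^ 2 - α + lam = lam - 1 / 4 := by rw [hαd]; ring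
  have hs : 0 < 2 * Real.pi := by have := Real.pi_pos; positivity
  have hK := K1_pos (Nat.succ_pos k)
  set f : Fin N → ℝ × (Fin k → ℝ) → ℂ := fun n z => wc z.1 • F n z with hf
  set f0 : Fin N → ℝ × (Fin k → ℝ) → ℂ := fun n z => wc z.1 • F0 n z + wc' z.1 • F n z with hf0
  set fj : Fin N → Fin k → ℝ × (Fin k → ℝ) → ℂ := fun n j z => wc z.1 • Fj n j z with hfj
  have hD : ∀ n, DatL k α lam (f n) (f0 n) (fj n) := fun n => (h n).dat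
  have hφ : ∀ n, ∫ z, (‖f0 n z - (α / z.1) • f n z‖ ^ 2 + lam * (‖f n z‖ ^ 2 / z.1 ^ 2)) ∂(H k) =
      ∫ z : ℂ × (Fin k → ℝ), (‖F0 n (‖z.1‖, z.2)‖ ^ 2 +
        lam * (‖F n (‖z.1‖, z.2)‖ ^ 2 / ‖z.1‖ ^ 2)) := fun n => (h n).phi_int.2
  have hW : ∀ n, WGradC (Pool.Agent.N96.PR.ext (f n)) (Fin.cons (Pool.Agent.N96.PR.ext (f0 n))
      (fun j => Pool.Agent.N96.PR.ext (fj n j))) := fun n => (hD n).wgrad hα hl0 hc0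
  have hin : ∀ n m, ∫ x, (starRingEnd ℂ) (Pool.Agent.N96.PR.ext (f n) x) *
      Pool.Agent.N96.PR.ext (f m) x = if n = m then (1 : ℂ) else 0 := by
    intro n m
    rw [← ho n m]
    exact innerC_eq (h n).cf (h m).cf (h n).i2 (h m).i2
  have hsub := Pool.Agent.R282.KO.sub_of_ortho (fun n => Pool.Agent.N96.PR.ext (f n))
    (fun n => (hW n).f2) hin
  have hkin := Pool.Agent.R282.KO.sub_thm (k + 1) (Nat.succ_pos k) N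
    (fun n => Pool.Agent.N96.PR.ext (f n))
    (fun n => Fin.cons (Pool.Agent.N96.PR.ext (f0 n)) (fun j => Pool.Agent.N96.PR.ext (fj n j)))
    hW hsub
  -- translation
  have e1 : (fun x : Fin (k + 1) → ℝ =>
      (∑ n, ‖Pool.Agent.N96.PR.ext (f n) x‖ ^ 2) ^ (1 + 2 / ((k + 1 : ℕ) : ℝ))) =
      Pool.Agent.N96.PR.ext (fun z => (∑ n, ‖f n z‖ ^ 2) ^ (1 + 2 / ((k + 1 : ℕ) : ℝ))) := by
    funext x
    unfold Pool.Agent.N96.PR.ext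
    by_cases hx : T x ∈ Ioi (0 : ℝ) ×ˢ (univ : Set (Fin k → ℝ))
    · simp only [indicator_of_mem hx]
    · simp only [indicator_of_notMem hx]
      rw [norm_zero, zero_pow two_ne_zero, Finset.sum_const_zero, Real.zero_rpow (by positivity)]
  have e2 : ∀ g : ℝ × (Fin k → ℝ) → ℂ, ∫ x, ‖Pool.Agent.N96.PR.ext g x‖ ^ 2 =
      ∫ z, ‖g z‖ ^ 2 ∂(H k) := by
    intro g
    have : (fun x => ‖Pool.Agent.N96.PR.ext g x‖ ^ 2) =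
        Pool.Agent.N96.PR.ext (fun z => ‖g z‖ ^ 2) :=
      funext fun x => ext_comp g (fun v => ‖v‖ ^ 2) (by simp) x
    rw [this, ext_integral]
  rw [e1, ext_integrable, ext_integral] at hkin
  obtain ⟨hI1, hk1⟩ := hkin
  have e3 : ∀ n, ∑ i, ∫ x, ‖(Fin.cons (Pool.Agent.N96.PR.ext (f0 n))
      (fun j => Pool.Agent.N96.PR.ext (fj n j)) :
      Fin (k + 1) → (Fin (k + 1) → ℝ) → ℂ) i x‖ ^ 2 =
      ∫ z, ‖f0 n z‖ ^ 2 ∂(H k) + ∑ j, ∫ z, ‖fj n j z‖ ^ 2 ∂(H k) := by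
    intro n
    rw [Fin.sum_univ_succ]
    simp only [Fin.cons_zero, Fin.cons_succ]
    rw [e2]
    congr 1
    exact Finset.sum_congr rfl fun j _ => e2 _
  rw [Finset.sum_congr rfl fun n _ => e3 n] at hk1
  have hk2 : K1 (k + 1) * ∫ z, (∑ n, ‖f n z‖ ^ 2) ^ (1 + 2 / ((k + 1 : ℕ) : ℝ)) ∂(H k) ≤
      ∑ n, (∫ z, ‖f0 n z‖ ^ 2 ∂(H k) + ∑ j, ∫ z, ‖fj n j z‖ ^ 2 ∂(H k)) := hk1
  -- the centrifugal term
  have hB : ∀ n, Integrable (fun z => (α ^ 2 - α + lam) * (‖f n z‖ ^ 2 / z.1 ^ 2)) (H k) := by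
    intro n
    have h1 := ((hD n).hardy hα hl0 hc0).1.sub ((hD n).f0_int hα hl0 hc0)
    refine h1.congr (Eventually.of_forall fun z => ?_)
    simp only [Pi.sub_apply]
    ring
  have hB2 : ∀ n, ∫ z, ‖f0 n z‖ ^ 2 ∂(H k) +
      ∫ z, (α ^ 2 - α + lam) * (‖f n z‖ ^ 2 / z.1 ^ 2) ∂(H k) ≤
      ∫ z : ℂ × (Fin k → ℝ), (‖F0 n (‖z.1‖, z.2)‖ ^ 2 +
        lam * (‖F n (‖z.1‖, z.2)‖ ^ 2 / ‖z.1‖ ^ 2)) := by
    intro n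
    rw [← hφ n, ← integral_add ((hD n).f0_int hα hl0 hc0) (hB n)]
    exact ((hD n).hardy hα hl0 hc0).2
  rw [hceq] at hB hB2 hc0
  have hsum : ∀ z : ℝ × (Fin k → ℝ), 0 < z.1 →
      ∑ n, ‖f n z‖ ^ 2 = 2 * Real.pi * z.1 ^ 1 * ∑ n, ‖F n z‖ ^ 2 := by
    intro z hz
    rw [Finset.mul_sum]
    refine Finset.sum_congr rfl fun n _ => ?_
    rw [hf]
    simp only
    rw [wc_norm hz, smul_eq_mul]
    ring
  have g1 : (fun z => (∑ n, ‖f n z‖ ^ 2) ^ (1 + 2 / ((k + 1 : ℕ) : ℝ))) =ᵐ[H k]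
      fun z => (2 * Real.pi * z.1 ^ 1 * ∑ n, ‖F n z‖ ^ 2) ^ (1 + 2 / ((k + 1 : ℕ) : ℝ)) := by
    filter_upwards [H_ae k] with z hz
    rw [hsum z hz]
  have g2 : (fun z => ∑ n, (lam - 1 / 4) * (‖f n z‖ ^ 2 / z.1 ^ 2)) =ᵐ[H k]
      fun z => (lam - 1 / 4) * ((2 * Real.pi * z.1 ^ 1 * ∑ n, ‖F n z‖ ^ 2) / z.1 ^ 2) := by
    filter_upwards [H_ae k] with z hz
    rw [← hsum z hz, ← Finset.mul_sum, ← Finset.sum_div]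
  refine ⟨hI1.congr g1, (integrable_finsetSum _ fun n _ => hB n).congr g2, ?_⟩
  rw [← integral_congr_ae g1, ← integral_congr_ae g2, integral_finsetSum _ fun n _ => hB n]
  have e6 : ∀ n j, ∫ z : ℂ × (Fin k → ℝ), ‖Fj n j (‖z.1‖, z.2)‖ ^ 2 =
      ∫ z, ‖fj n j z‖ ^ 2 ∂(H k) := fun n j => (nsqC_int ((h n).cj j) ((h n).ij j)).2.symm
  calc K1 (k + 1) * ∫ z, (∑ n, ‖f n z‖ ^ 2) ^ (1 + 2 / ((k + 1 : ℕ) : ℝ)) ∂(H k) +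
        ∑ n, ∫ z, (lam - 1 / 4) * (‖f n z‖ ^ 2 / z.1 ^ 2) ∂(H k)
      ≤ ∑ n, (∫ z, ‖f0 n z‖ ^ 2 ∂(H k) + ∑ j, ∫ z, ‖fj n j z‖ ^ 2 ∂(H k)) +
        ∑ n, ∫ z, (lam - 1 / 4) * (‖f n z‖ ^ 2 / z.1 ^ 2) ∂(H k) := by linarith
    _ = ∑ n, ((∫ z, ‖f0 n z‖ ^ 2 ∂(H k) +
          ∫ z, (lam - 1 / 4) * (‖f n z‖ ^ 2 / z.1 ^ 2) ∂(H k)) +
        ∑ j, ∫ z, ‖fj n j z‖ ^ 2 ∂(H k)) := by
        rw [← Finset.sum_add_distrib]
        refine Finset.sum_congr rfl fun n _ => ?_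
        ring
    _ ≤ _ := by
        refine Finset.sum_le_sum fun n _ => ?_
        rw [Finset.sum_congr rfl fun j _ => e6 n j]
        linarith [hB2 n]

/-- the density of the half space -/
noncomputable def dH {k : ℕ} {ι : Type} [Fintype ι] (u : ι → ℂ × (Fin k → ℝ) → ℂ)
    (z : ℝ × (Fin k → ℝ)) : ℝ := 2 * Real.pi * z.1 ^ 1 * ∑ n, ‖u n ((z.1 : ℂ), z.2)‖ ^ 2

theorem chanU {k : ℕ} {l : ℤ} {ι : Type} [Fintype ι] [DecidableEq ι] (hl : l ≠ 0)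
    (u : ι → ℂ × (Fin k → ℝ) → ℂ)
    (hr : ∀ n, Rot l (u n)) (hC : ∀ n, ContDiffOn ℝ 1 (u n) {z | z.1 ≠ 0})
    (h2 : ∀ n, Integrable (fun z => ‖u n z‖ ^ 2)) (he : ∀ n, Integrable (gradC (u n)))
    (ho : ∀ n m, ∫ z, star (u n z) * u m z = if n = m then (1 : ℂ) else 0) :
    Integrable (fun z => dH u z ^ (1 + 2 / ((k + 1 : ℕ) : ℝ))) (H k) ∧
    Integrable (fun z => ((l : ℝ) ^ 2 - 1 / 4) * (dH u z / z.1 ^ 2)) (H k) ∧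
    K1 (k + 1) * ∫ z, dH u z ^ (1 + 2 / ((k + 1 : ℕ) : ℝ)) ∂(H k) +
    ∫ z, ((l : ℝ) ^ 2 - 1 / 4) * (dH u z / z.1 ^ 2) ∂(H k) ≤ ∑ n, ∫ z, gradC (u n) z := by
  have hl1 : (1 : ℝ) ≤ (l : ℝ) ^ 2 := by
    have h1 : (1 : ℤ) ≤ l ^ 2 := by
      have : 0 < l ^ 2 := by positivity
      omega
    exact_mod_cast h1
  have e := (Fintype.equivFin ι).symm
  have hp := fun n => mkProfC (hr n) (hC n) (h2 n) (he n)
  have hs := chanH (lam := (l : ℝ) ^ 2) (by linarith) (fun n z => u (e n) ((z.1 : ℂ), z.2))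
    (fun n z => fderiv ℝ (u (e n)) ((z.1 : ℂ), z.2) (1, 0))
    (fun n j z => fderiv ℝ (u (e n)) ((z.1 : ℂ), z.2) (0, Pi.single j 1)) (fun n => (hp (e n)).1)
    (fun n m => by
      have h3 := ho (e n) (e m)
      simp only [e.injective.eq_iff] at h3
      rw [← h3]
      refine integral_congr_ae (Eventually.of_forall fun z => ?_)
      exact (u_inner (hr (e n)) (hr (e m)) z).symm)
  have h1 : ∀ z : ℝ × (Fin k → ℝ), ∑ n, ‖u (e n) ((z.1 : ℂ), z.2)‖ ^ 2 =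
      ∑ n, ‖u n ((z.1 : ℂ), z.2)‖ ^ 2 := fun z =>
    e.sum_comp (fun n => ‖u n ((z.1 : ℂ), z.2)‖ ^ 2)
  simp only [h1] at hs
  rw [← Finset.sum_congr rfl fun n _ => (hp (e n)).2,
    e.sum_comp (fun n => ∫ z, gradC (u n) z)] at hs
  exact hs

end Pool.Agent.N96.AX
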