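import Pool.Agent.N96.AX.H

/-! The pointwise inequality for several channels. -/

set_option autoImplicit false

open MeasureTheory Set Filter Topology

namespace Pool.Agent.N96.AX

open Pool.Agent.N96.PR
open Pool.Agent.R117.RL (Kcl Kcl_pow Ga Ga_pos Ga_three pow_frac om om_pos)

/-- the constant of the Legendre transform -/
noncomputable def LA (n : ℕ) (K : ℝ) : ℝ :=
  2 / ((n : ℝ) + 2) * ((((n : ℝ) + 2) / n * K) ^ ((n : ℝ) / 2))⁻¹

theorem LA_pos {n : ℕ} (hn : 0 < n) {K : ℝ} (hK : 0 < K) : 0 < LA n K := by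
  have hn' : (0 : ℝ) < n := by exact_mod_cast hn
  unfold LA
  positivity

theorem young {n : ℕ} (hn : 0 < n) {K s a : ℝ} (hK : 0 < K) (hs : 0 ≤ s) (ha : 0 ≤ a) :
    a * s ≤ K * s ^ (1 + 2 / (n : ℝ)) + LA n K * a ^ (1 + (n : ℝ) / 2) := by
  have hn' : (0 : ℝ) < n := by exact_mod_cast hn
  set p : ℝ := 1 + 2 / (n : ℝ) with hp
  set q : ℝ := 1 + (n : ℝ) / 2 with hq
  have hp0 : 0 < p := by rw [hp]; positivity
  have hq0 : 0 < q := by rw [hq]; positivity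
  have hp1 : 1 < p := by
    have : 0 < 2 / (n : ℝ) := by positivity
    linarith
  have hpq : p.HolderConjugate q := by
    rw [Real.holderConjugate_iff]
    refine ⟨hp1, ?_⟩
    rw [hp, hq]
    field_simp
    ring
  set b : ℝ := (p * K) ^ (1 / p) with hb
  have hpK : 0 < p * K := by positivity
  have hb0 : 0 < b := by rw [hb]; positivity
  have h := Real.young_inequality_of_nonneg (a := b * s) (b := a / b) (by positivity)
    (by positivity) hpq
  have e1 : b * s * (a / b) = a * s := by field_simp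
  have e2 : (b * s) ^ p / p = K * s ^ p := by
    rw [Real.mul_rpow hb0.le hs, hb, ← Real.rpow_mul hpK.le, one_div_mul_cancel hp0.ne',
      Real.rpow_one]
    field_simp
  have e3 : (a / b) ^ q / q = LA n K * a ^ q := by
    have h1 : b ^ q = (((n : ℝ) + 2) / n * K) ^ ((n : ℝ) / 2) := by
      rw [hb, ← Real.rpow_mul hpK.le]
      have h2 : 1 / p * q = (n : ℝ) / 2 := by
        rw [hp, hq]
        field_simp
        ring
      have h3 : p * K = ((n : ℝ) + 2) / n * K := by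
        rw [hp]
        field_simp
      rw [h2, h3]
    rw [Real.div_rpow ha hb0.le, h1]
    unfold LA
    rw [hq]
    field_simp
    ring
  rw [e1, e2, e3] at h
  exact h

/-- the criterion -/
def Crit (n : ℕ) (L : Finset ℤ) (C : ℝ) : Prop :=
  ∀ μ : ℝ, 0 < μ → ∑ l ∈ L, (max 0 (1 - ((l : ℝ) ^ 2 - 1 / 4) / μ)) ^ (1 + (n : ℝ) / 2) ≤ C * √μ

theorem ptL {n : ℕ} (hn : 0 < n) {L : Finset ℤ} {C K r : ℝ} (hC : 0 < C) (hK : 0 < K)
    (hr : 0 < r) (hcrit : Crit n L C) (S : ℤ → ℝ) (hS : ∀ l ∈ L, 0 ≤ S l) {μ : ℝ} (hμ : 0 < μ) :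
    μ * (∑ l ∈ L, S l) - LA n K * C * r * μ ^ (1 + ((n : ℝ) + 1) / 2) ≤
      ∑ l ∈ L, (K * S l ^ (1 + 2 / (n : ℝ)) + ((l : ℝ) ^ 2 - 1 / 4) * (S l / r ^ 2)) := by
  have hn' : (0 : ℝ) < n := by exact_mod_cast hn
  have hA := LA_pos hn hK
  have h1 : ∀ l ∈ L, μ * S l ≤ (K * S l ^ (1 + 2 / (n : ℝ)) +
      ((l : ℝ) ^ 2 - 1 / 4) * (S l / r ^ 2)) + LA n K * (μ ^ (1 + (n : ℝ) / 2) *
        (max 0 (1 - ((l : ℝ) ^ 2 - 1 / 4) / (μ * r ^ 2))) ^ (1 + (n : ℝ) / 2)) := by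
    intro l hl
    set c : ℝ := (l : ℝ) ^ 2 - 1 / 4 with hc
    have h2 : 0 ≤ max 0 (1 - c / (μ * r ^ 2)) := le_max_left _ _
    have h3 := young hn hK (hS l hl) (mul_nonneg hμ.le h2)
    rw [Real.mul_rpow hμ.le h2] at h3
    have h4 : μ * S l - c * (S l / r ^ 2) ≤ μ * max 0 (1 - c / (μ * r ^ 2)) * S l := by
      have h5 : μ * S l - c * (S l / r ^ 2) = μ * (1 - c / (μ * r ^ 2)) * S l := by
        field_simp
      rw [h5]
      exact mul_le_mul_of_nonneg_right (mul_le_mul_of_nonneg_left (le_max_right _ _) hμ.le)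
        (hS l hl)
    linarith
  have h2 := Finset.sum_le_sum h1
  rw [← Finset.mul_sum, Finset.sum_add_distrib, ← Finset.mul_sum, ← Finset.mul_sum] at h2
  have h3 := hcrit (μ * r ^ 2) (by positivity)
  have h4 : √(μ * r ^ 2) = r * μ ^ ((1 : ℝ) / 2) := by
    rw [Real.sqrt_mul hμ.le, Real.sqrt_sq hr.le, Real.sqrt_eq_rpow]
    ring
  have h5 : LA n K * (μ ^ (1 + (n : ℝ) / 2) * ∑ l ∈ L,
      (max 0 (1 - ((l : ℝ) ^ 2 - 1 / 4) / (μ * r ^ 2))) ^ (1 + (n : ℝ) / 2)) ≤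
      LA n K * C * r * μ ^ (1 + ((n : ℝ) + 1) / 2) := by
    have h6 : μ ^ (1 + ((n : ℝ) + 1) / 2) = μ ^ (1 + (n : ℝ) / 2) * μ ^ ((1 : ℝ) / 2) := by
      rw [← Real.rpow_add hμ]
      congr 1
      ring
    rw [h6]
    calc _ ≤ LA n K * (μ ^ (1 + (n : ℝ) / 2) * (C * √(μ * r ^ 2))) := by
          refine mul_le_mul_of_nonneg_left (mul_le_mul_of_nonneg_left h3 (by positivity)) hA.le
      _ = _ := by rw [h4]; ring
  linarith

/-- the optimal choice of `μ` -/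
theorem opt {d : ℕ} (hd : 0 < d) {S B : ℝ} (hS : 0 < S) (hB : 0 < B) {R : ℝ}
    (h : ∀ μ : ℝ, 0 < μ → μ * S - B * μ ^ (1 + (d : ℝ) / 2) ≤ R) :
    (d : ℝ) / (d + 2) * (S * (2 * S / (B * (d + 2))) ^ (2 / (d : ℝ))) ≤ R := by
  have hd' : (0 : ℝ) < d := by exact_mod_cast hd
  set x : ℝ := 2 * S / (B * (d + 2)) with hx
  have hx0 : 0 < x := by positivity
  set μ : ℝ := x ^ (2 / (d : ℝ)) with hμ
  have hμ0 : 0 < μ := by positivity
  have h1 := h μ hμ0
  have h2 : μ ^ (1 + (d : ℝ) / 2) = μ * x := by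
    rw [Real.rpow_add hμ0, Real.rpow_one]
    congr 1
    rw [hμ, ← Real.rpow_mul hx0.le]
    have : 2 / (d : ℝ) * (d / 2) = 1 := by field_simp
    rw [this, Real.rpow_one]
  rw [h2] at h1
  refine le_trans (le_of_eq ?_) h1
  have h3 : B * (μ * x) = 2 / (d + 2) * (μ * S) := by
    rw [hx]
    field_simp
  rw [h3]
  field_simp
  ring

end Pool.Agent.N96.AX
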