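import Pool.Agent.N96.AX.I

/-! The kinetic inequality under the criterion. -/

set_option autoImplicit false

open MeasureTheory Set Filter Topology

namespace Pool.Agent.N96.AX

open Pool.Agent.N96.PR
open Pool.Agent.R117.RL (Kcl Kcl_pow Ga Ga_pos Ga_three pow_frac om om_pos)

theorem LA_K1 {n : ℕ} (hn : 0 < n) :
    LA n (K1 n) = 2 / ((n : ℝ) + 2) * (om n / (√(3 / 4) * (2 * Real.pi) ^ n)) := by
  have hn' : (0 : ℝ) < n := by exact_mod_cast hn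
  have ho := om_pos n
  have hπ := Real.pi_pos
  have e1 : ((n : ℝ) + 2) / n * K1 n = (3 / 4 : ℝ) ^ (1 / (n : ℝ)) *
      ((2 * Real.pi) ^ 2 / om n ^ (2 / (n : ℝ))) := by
    unfold K1 Kcl
    field_simp
  have e2 : (((n : ℝ) + 2) / n * K1 n) ^ ((n : ℝ) / 2) = √(3 / 4) * ((2 * Real.pi) ^ n / om n) := by
    have h1 : 1 / (n : ℝ) * (n / 2) = 1 / 2 := by field_simp
    have h2 : 2 / (n : ℝ) * (n / 2) = 1 := by field_simp
    have h3 : ((2 : ℕ) : ℝ) * ((n : ℝ) / 2) = n := by push_cast; ring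
    have h4 : ((3 / 4 : ℝ) ^ (1 / (n : ℝ))) ^ ((n : ℝ) / 2) = √(3 / 4) := by
      rw [← Real.rpow_mul (by norm_num), h1, Real.sqrt_eq_rpow]
    have h5 : (om n ^ (2 / (n : ℝ))) ^ ((n : ℝ) / 2) = om n := by
      rw [← Real.rpow_mul ho.le, h2, Real.rpow_one]
    have h6 : ((2 * Real.pi) ^ 2) ^ ((n : ℝ) / 2) = (2 * Real.pi) ^ n := by
      rw [← Real.rpow_natCast (2 * Real.pi) 2, ← Real.rpow_mul (by positivity), h3,
        Real.rpow_natCast]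
    have h7 : ((2 * Real.pi) ^ 2 / om n ^ (2 / (n : ℝ))) ^ ((n : ℝ) / 2) =
        (2 * Real.pi) ^ n / om n := by
      rw [Real.div_rpow (by positivity) (by positivity), h5, h6]
    rw [e1, Real.mul_rpow (by positivity) (by positivity), h4, h7]
  unfold LA
  rw [e2]
  field_simp

theorem final_const {n : ℕ} (hn : 0 < n) {C r ρ : ℝ} (hC : 0 < C) (hr : 0 < r) (hρ : 0 < ρ)
    (hCc : C * (((n : ℝ) + 3) * om n) ≤ √(3 / 4) * (((n : ℝ) + 2) * om (1 + n))) :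
    Kcl (1 + n) * (2 * Real.pi * (r ^ 1 * ρ ^ (1 + 2 / ((1 + n : ℕ) : ℝ)))) ≤
      ((1 + n : ℕ) : ℝ) / (((1 + n : ℕ) : ℝ) + 2) * ((2 * Real.pi * r ^ 1 * ρ) *
        (2 * (2 * Real.pi * r ^ 1 * ρ) / (LA n (K1 n) * C * r * (((1 + n : ℕ) : ℝ) + 2))) ^
          (2 / ((1 + n : ℕ) : ℝ))) := by
  have hn' : (0 : ℝ) < n := by exact_mod_cast hn
  have hd' : (0 : ℝ) < ((1 + n : ℕ) : ℝ) := by positivity
  have ho := om_pos n
  have ho1 := om_pos (1 + n)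
  have hπ := Real.pi_pos
  have hA := LA_pos hn (K1_pos hn)
  have h34 : 0 < √(3 / 4 : ℝ) := by positivity
  have e1 : 2 * (2 * Real.pi * r ^ 1 * ρ) / (LA n (K1 n) * C * r * (((1 + n : ℕ) : ℝ) + 2)) =
      (4 * Real.pi / (LA n (K1 n) * C * (((1 + n : ℕ) : ℝ) + 2))) * ρ := by
    field_simp
    ring
  have e2 : (2 * Real.pi) ^ 2 = ((2 * Real.pi) ^ (1 + n)) ^ (2 / ((1 + n : ℕ) : ℝ)) := by
    rw [← Real.rpow_natCast (2 * Real.pi) (1 + n), ← Real.rpow_mul (by positivity),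
      mul_div_cancel₀ _ hd'.ne', Real.rpow_two]
  have h1 : (2 * Real.pi) ^ (1 + n) / om (1 + n) ≤
      4 * Real.pi / (LA n (K1 n) * C * (((1 + n : ℕ) : ℝ) + 2)) := by
    rw [div_le_div_iff₀ ho1 (by positivity), LA_K1 hn]
    have e3 : (((1 + n : ℕ) : ℝ) + 2) = (n : ℝ) + 3 := by push_cast; ring
    rw [e3]
    have e4 : (2 * Real.pi) ^ (1 + n) * (2 / ((n : ℝ) + 2) *
        (om n / (√(3 / 4) * (2 * Real.pi) ^ n)) * C * ((n : ℝ) + 3)) =
        4 * Real.pi / (√(3 / 4) * ((n : ℝ) + 2)) * (C * (((n : ℝ) + 3) * om n)) := by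
      rw [pow_add, pow_one]
      field_simp
      ring
    have e5 : 4 * Real.pi * om (1 + n) =
        4 * Real.pi / (√(3 / 4) * ((n : ℝ) + 2)) * (√(3 / 4) * (((n : ℝ) + 2) * om (1 + n))) := by
      field_simp
    rw [e4, e5]
    exact mul_le_mul_of_nonneg_left hCc (by positivity)
  have h2 : (2 * Real.pi) ^ 2 / om (1 + n) ^ (2 / ((1 + n : ℕ) : ℝ)) ≤
      (4 * Real.pi / (LA n (K1 n) * C * (((1 + n : ℕ) : ℝ) + 2))) ^ (2 / ((1 + n : ℕ) : ℝ)) := by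
    rw [e2, ← Real.div_rpow (by positivity) ho1.le]
    exact Real.rpow_le_rpow (by positivity) h1 (by positivity)
  rw [e1, Real.mul_rpow (by positivity) hρ.le, Real.rpow_add hρ, Real.rpow_one]
  unfold Kcl
  calc _ = ((1 + n : ℕ) : ℝ) / (((1 + n : ℕ) : ℝ) + 2) * (2 * Real.pi * r ^ 1 * ρ *
        ρ ^ (2 / ((1 + n : ℕ) : ℝ))) *
        ((2 * Real.pi) ^ 2 / om (1 + n) ^ (2 / ((1 + n : ℕ) : ℝ))) := by ring
    _ ≤ ((1 + n : ℕ) : ℝ) / (((1 + n : ℕ) : ℝ) + 2) * (2 * Real.pi * r ^ 1 * ρ *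
        ρ ^ (2 / ((1 + n : ℕ) : ℝ))) *
        (4 * Real.pi / (LA n (K1 n) * C * (((1 + n : ℕ) : ℝ) + 2))) ^ (2 / ((1 + n : ℕ) : ℝ)) :=
        mul_le_mul_of_nonneg_left h2 (by positivity)
    _ = _ := by ring

theorem critSystem {k N : ℕ} {L : Finset ℤ} (h0 : (0 : ℤ) ∉ L) {C : ℝ} (hC : 0 < C)
    (hcrit : Crit (k + 1) L C)
    (hCc : C * ((((k + 1 : ℕ) : ℝ) + 3) * om (k + 1)) ≤
      √(3 / 4) * ((((k + 1 : ℕ) : ℝ) + 2) * om (1 + (k + 1))))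
    (ℓ : Fin N → ℤ)
    (hℓ : ∀ n, ℓ n ∈ L) (u : Fin N → ℂ × (Fin k → ℝ) → ℂ)
    (hr : ∀ n, Rot (ℓ n) (u n)) (hCd : ∀ n, ContDiffOn ℝ 1 (u n) {z | z.1 ≠ 0})
    (h2 : ∀ n, Integrable (fun z => ‖u n z‖ ^ 2)) (he : ∀ n, Integrable (gradC (u n)))
    (ho : ∀ n m, ∫ z, star (u n z) * u m z = if n = m then (1 : ℂ) else 0) :
    Integrable (fun z => (∑ n, ‖u n z‖ ^ 2) ^ (1 + 2 / ((1 + (k + 1) : ℕ) : ℝ))) ∧
    Kcl (1 + (k + 1)) *
      ∫ z, (∑ n, ‖u n z‖ ^ 2) ^ (1 + 2 / ((1 + (k + 1) : ℕ) : ℝ)) ≤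
      ∑ n, ∫ z, gradC (u n) z := by
  have hne : ∀ l ∈ L, l ≠ 0 := fun l hl h => h0 (h ▸ hl)
  have hd : 0 < 1 + (k + 1) := by omega
  have hd' : (0 : ℝ) < ((1 + (k + 1) : ℕ) : ℝ) := by positivity
  have hπ := Real.pi_pos
  have hK := K1_pos (Nat.succ_pos k)
  have hKcl : 0 < Kcl (1 + (k + 1)) := Kcl_pos hd
  set p : ℝ := 1 + 2 / ((1 + (k + 1) : ℕ) : ℝ) with hp
  have hch := fun (l : ℤ) (hl : l ∈ L) => chanU (ι := {n // ℓ n = l}) (hne l hl)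
    (fun n => u n.1) (fun n => by have := hr n.1; rw [n.2] at this; exact this)
    (fun n => hCd _) (fun n => h2 _) (fun n => he _)
    (fun n m => by
      rw [ho]
      simp only [Subtype.ext_iff])
  have hfib : ∀ g : Fin N → ℝ, ∑ l ∈ L, ∑ n : {n // ℓ n = l}, g n.1 = ∑ n, g n := by
    intro g
    rw [← Finset.sum_fiberwise_of_maps_to (s := Finset.univ) (t := L) (g := ℓ)
      (fun n _ => hℓ n) g]
    refine Finset.sum_congr rfl fun l _ => ?_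
    exact (Finset.sum_subtype (Finset.univ.filter fun n => ℓ n = l) (fun n => by simp) g).symm
  set s : ℤ → ℝ × (Fin k → ℝ) → ℝ := fun l z => dH (fun n : {n // ℓ n = l} => u n.1) z with hs
  set P : ℝ × (Fin k → ℝ) → ℝ := fun z => ∑ n, ‖u n ((z.1 : ℂ), z.2)‖ ^ 2 with hP
  have hP0 : ∀ z, 0 ≤ P z := fun z => Finset.sum_nonneg fun n _ => sq_nonneg _
  have hPc : ContinuousOn P (Ioi 0 ×ˢ univ) := by
    apply continuousOn_finsetSum
    intro n _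
    exact ((hCd n).continuousOn.comp embC_cont.continuousOn embC_maps).norm.pow 2
  have hsum : ∀ z, ∑ l ∈ L, s l z = 2 * Real.pi * z.1 ^ 1 * P z := by
    intro z
    rw [hP]
    simp only
    rw [← hfib (fun n => ‖u n ((z.1 : ℂ), z.2)‖ ^ 2), Finset.mul_sum]
    rfl
  have hs0 : ∀ (z : ℝ × (Fin k → ℝ)), 0 < z.1 → ∀ l, 0 ≤ s l z := by
    intro z hz l
    rw [hs]
    unfold dH
    have : 0 ≤ ∑ n : {n // ℓ n = l}, ‖u n.1 ((z.1 : ℂ), z.2)‖ ^ 2 :=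
      Finset.sum_nonneg fun n _ => sq_nonneg _
    positivity
  set R : ℝ × (Fin k → ℝ) → ℝ := fun z => ∑ l ∈ L,
    (K1 (k + 1) * s l z ^ (1 + 2 / ((k + 1 : ℕ) : ℝ)) +
      ((l : ℝ) ^ 2 - 1 / 4) * (s l z / z.1 ^ 2)) with hR
  have hRl : ∀ l ∈ L, Integrable (fun z => K1 (k + 1) * s l z ^ (1 + 2 / ((k + 1 : ℕ) : ℝ)) +
      ((l : ℝ) ^ 2 - 1 / 4) * (s l z / z.1 ^ 2)) (H k) := fun l hl =>
    ((hch l hl).1.const_mul _).add (hch l hl).2.1
  have hRi : Integrable R (H k) := integrable_finsetSum _ hRl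
  have hR2 : ∫ z, R z ∂(H k) ≤ ∑ n, ∫ z, gradC (u n) z := by
    rw [hR, integral_finsetSum _ hRl, ← hfib (fun n => ∫ z, gradC (u n) z)]
    refine Finset.sum_le_sum fun l hl => ?_
    rw [integral_add ((hch l hl).1.const_mul _) (hch l hl).2.1, integral_const_mul]
    exact (hch l hl).2.2
  have hpt : ∀ᵐ z ∂(H k), Kcl (1 + (k + 1)) * (2 * Real.pi * (z.1 ^ 1 • P z ^ p)) ≤ R z := by
    filter_upwards [H_ae k] with z hz
    have hz0 : (0 : ℝ) < z.1 := hz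
    rcases (hP0 z).eq_or_lt with hPz | hPz
    · rw [← hPz, Real.zero_rpow (by positivity), smul_zero, mul_zero, mul_zero]
      rw [hR]
      refine Finset.sum_nonneg fun l hl => ?_
      have h1 := hs0 z hz0 l
      have h3 := cl_pos (hne l hl)
      positivity
    · rw [smul_eq_mul]
      refine (final_const (Nat.succ_pos k) hC hz0 hPz hCc).trans ?_
      have hA := LA_pos (Nat.succ_pos k) hK
      refine opt (d := 1 + (k + 1)) hd (S := 2 * Real.pi * z.1 ^ 1 * P z)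
        (B := LA (k + 1) (K1 (k + 1)) * C * z.1) (by positivity) (by positivity) fun μ hμ => ?_
      have h4 := ptL (Nat.succ_pos k) hC hK hz0 hcrit (fun l => s l z)
        (fun l _ => hs0 z hz0 l) hμ
      have h5 : ((1 + (k + 1) : ℕ) : ℝ) = ((k + 1 : ℕ) : ℝ) + 1 := by push_cast; ring
      rw [hsum] at h4
      rw [h5]
      exact h4
  have hPp : ContinuousOn (fun z : ℝ × (Fin k → ℝ) => P z ^ p) (Ioi 0 ×ˢ univ) :=
    hPc.rpow_const fun z _ => Or.inr (by positivity)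
  have hI : Integrable (fun z : ℝ × (Fin k → ℝ) => z.1 ^ 1 • P z ^ p) (H k) := by
    have hcc : ContinuousOn (fun z : ℝ × (Fin k → ℝ) => z.1 ^ 1 • P z ^ p) (Ioi 0 ×ˢ univ) :=
      smul_cont (q := 1) (G := fun r y => P (r, y) ^ p) hPp
    refine Integrable.mono' (hRi.const_mul (Kcl (1 + (k + 1)) * (2 * Real.pi))⁻¹) (H_meas hcc) ?_
    filter_upwards [H_ae k, hpt] with z hz h3
    have hz0 : (0 : ℝ) < z.1 := hz
    have h0 : 0 ≤ z.1 ^ 1 • P z ^ p := by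
      rw [smul_eq_mul]
      exact mul_nonneg (by positivity) (Real.rpow_nonneg (hP0 z) _)
    rw [Real.norm_eq_abs, abs_of_nonneg h0]
    rw [← mul_assoc] at h3
    rw [← div_eq_inv_mul, le_div_iff₀ (by positivity), mul_comm]
    exact h3
  have hfin : Integrable (fun z : ℂ × (Fin k → ℝ) => P (‖z.1‖, z.2) ^ p) :=
    (polC_int (G := fun r y => P (r, y) ^ p) hPp).2 hI
  have e5 : ∫ z : ℂ × (Fin k → ℝ), P (‖z.1‖, z.2) ^ p =
      (2 * Real.pi) • ∫ z, z.1 ^ 1 • P z ^ p ∂(H k) :=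
    polC (G := fun r y => P (r, y) ^ p) hPp hfin
  have e6 : (fun z : ℂ × (Fin k → ℝ) => (∑ n, ‖u n z‖ ^ 2) ^ p) =
      fun z => P (‖z.1‖, z.2) ^ p := by
    funext z
    congr 1
    exact Finset.sum_congr rfl fun n _ => by rw [u_norm (hr n) z]
  rw [e6]
  refine ⟨hfin, ?_⟩
  rw [e5]
  refine le_trans ?_ hR2
  rw [smul_eq_mul, ← integral_const_mul, ← integral_const_mul]
  exact integral_mono_ae ((hI.const_mul _).const_mul _) hRi hpt

end Pool.Agent.N96.AX
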