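import Pool.Agent.N96.AX.J

/-! The criterion for the angular momenta of absolute value one to five. -/

set_option autoImplicit false

open MeasureTheory Set Filter Topology

namespace Pool.Agent.N96.AX

theorem sh {a v : ℝ} (h : a ≤ v) : ∃ w : ℝ, 0 ≤ w ∧ v = a + w := ⟨v - a, by linarith, by ring⟩

theorem q1 {v : ℝ} (h : 43 / 50 ≤ v) :
    2 * (v ^ 2 - 3 / 4) ^ 2 ≤ 9237 / 10000 * v ^ 5 := by
  obtain ⟨w, hw, rfl⟩ := sh h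
  nlinarith [pow_nonneg hw 2, pow_nonneg hw 3, pow_nonneg hw 4, pow_nonneg hw 5,
    mul_nonneg hw (sq_nonneg (w - 1)), mul_nonneg (pow_nonneg hw 2) (sq_nonneg (w - 1))]

theorem q2 {v : ℝ} (h : 193 / 100 ≤ v) :
    2 * ((v ^ 2 - 3 / 4) ^ 2 + (v ^ 2 - 15 / 4) ^ 2) ≤ 9237 / 10000 * v ^ 5 := by
  obtain ⟨w, hw, rfl⟩ := sh h
  nlinarith [pow_nonneg hw 2, pow_nonneg hw 3, pow_nonneg hw 4, pow_nonneg hw 5,
    sq_nonneg (w - 1),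
    mul_nonneg hw (sq_nonneg (w - 1)), mul_nonneg (pow_nonneg hw 2) (sq_nonneg (w - 1))]

theorem q3 {v : ℝ} (h : 59 / 20 ≤ v) :
    2 * ((v ^ 2 - 3 / 4) ^ 2 + (v ^ 2 - 15 / 4) ^ 2 + (v ^ 2 - 35 / 4) ^ 2) ≤
      9237 / 10000 * v ^ 5 := by
  obtain ⟨w, hw, rfl⟩ := sh h
  nlinarith [pow_nonneg hw 2, pow_nonneg hw 3, pow_nonneg hw 4, pow_nonneg hw 5,
    sq_nonneg (w - 1),
    mul_nonneg hw (sq_nonneg (w - 1)), mul_nonneg (pow_nonneg hw 2) (sq_nonneg (w - 1))]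

theorem q4 {v : ℝ} (h : 99 / 25 ≤ v) :
    2 * ((v ^ 2 - 3 / 4) ^ 2 + (v ^ 2 - 15 / 4) ^ 2 + (v ^ 2 - 35 / 4) ^ 2 +
      (v ^ 2 - 63 / 4) ^ 2) ≤ 9237 / 10000 * v ^ 5 := by
  obtain ⟨w, hw, rfl⟩ := sh h
  nlinarith [pow_nonneg hw 2, pow_nonneg hw 3, pow_nonneg hw 4, pow_nonneg hw 5,
    sq_nonneg (w - 6 / 5), mul_nonneg hw (sq_nonneg (w - 6 / 5)),
    mul_nonneg (pow_nonneg hw 2) (sq_nonneg (w - 6 / 5)),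
    mul_nonneg (pow_nonneg hw 3) (sq_nonneg (w - 6 / 5))]

theorem q5 {v : ℝ} (h : 497 / 100 ≤ v) :
    2 * ((v ^ 2 - 3 / 4) ^ 2 + (v ^ 2 - 15 / 4) ^ 2 + (v ^ 2 - 35 / 4) ^ 2 +
      (v ^ 2 - 63 / 4) ^ 2 + (v ^ 2 - 99 / 4) ^ 2) ≤ 9237 / 10000 * v ^ 5 := by
  obtain ⟨w, hw, rfl⟩ := sh h
  nlinarith [pow_nonneg hw 2, pow_nonneg hw 3, pow_nonneg hw 4, pow_nonneg hw 5,
    sq_nonneg (w - 139 / 100), mul_nonneg hw (sq_nonneg (w - 139 / 100)),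
    mul_nonneg (pow_nonneg hw 2) (sq_nonneg (w - 139 / 100)),
    mul_nonneg (pow_nonneg hw 3) (sq_nonneg (w - 139 / 100))]

/-- `0.9 x² v² + x³ / 0.9` -/
noncomputable def ct (v x : ℝ) : ℝ := 9 / 10 * (v ^ 2 * x ^ 2) + 10 / 9 * x ^ 3

theorem r1 {v : ℝ} (h : 43 / 50 ≤ v) :
    ct v (v ^ 2 - 3 / 4) ≤ 85 / 100 * v ^ 7 := by
  obtain ⟨w, hw, rfl⟩ := sh h
  unfold ct
  nlinarith [pow_nonneg hw 2, pow_nonneg hw 3, pow_nonneg hw 4, pow_nonneg hw 5,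
    pow_nonneg hw 6, pow_nonneg hw 7]

theorem r2 {v : ℝ} (h : 193 / 100 ≤ v) :
    ct v (v ^ 2 - 3 / 4) + ct v (v ^ 2 - 15 / 4) ≤ 85 / 100 * v ^ 7 := by
  obtain ⟨w, hw, rfl⟩ := sh h
  unfold ct
  nlinarith [pow_nonneg hw 2, pow_nonneg hw 3, pow_nonneg hw 4, pow_nonneg hw 5,
    pow_nonneg hw 6, pow_nonneg hw 7]

theorem r3 {v : ℝ} (h : 59 / 20 ≤ v) :
    ct v (v ^ 2 - 3 / 4) + ct v (v ^ 2 - 15 / 4) + ct v (v ^ 2 - 35 / 4) ≤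
      85 / 100 * v ^ 7 := by
  obtain ⟨w, hw, rfl⟩ := sh h
  unfold ct
  nlinarith [pow_nonneg hw 2, pow_nonneg hw 3, pow_nonneg hw 4, pow_nonneg hw 5,
    pow_nonneg hw 6, pow_nonneg hw 7, mul_nonneg (pow_nonneg hw 2) (sq_nonneg (w - 1)),
    mul_nonneg hw (sq_nonneg (w - 1))]

theorem r4 {v : ℝ} (h : 99 / 25 ≤ v) :
    ct v (v ^ 2 - 3 / 4) + ct v (v ^ 2 - 15 / 4) + ct v (v ^ 2 - 35 / 4) +
      ct v (v ^ 2 - 63 / 4) ≤ 85 / 100 * v ^ 7 := by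
  obtain ⟨w, hw, rfl⟩ := sh h
  unfold ct
  nlinarith [pow_nonneg hw 2, pow_nonneg hw 3, pow_nonneg hw 4, pow_nonneg hw 5,
    pow_nonneg hw 6, pow_nonneg hw 7, sq_nonneg (w - 3 / 2), mul_nonneg hw (sq_nonneg (w - 3 / 2)),
    mul_nonneg (pow_nonneg hw 2) (sq_nonneg (w - 3 / 2)),
    mul_nonneg (pow_nonneg hw 3) (sq_nonneg (w - 3 / 2))]

theorem r5 {v : ℝ} (h : 497 / 100 ≤ v) :
    ct v (v ^ 2 - 3 / 4) + ct v (v ^ 2 - 15 / 4) + ct v (v ^ 2 - 35 / 4) +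
      ct v (v ^ 2 - 63 / 4) + ct v (v ^ 2 - 99 / 4) ≤ 85 / 100 * v ^ 7 := by
  obtain ⟨w, hw, rfl⟩ := sh h
  unfold ct
  nlinarith [pow_nonneg hw 2, pow_nonneg hw 3, pow_nonneg hw 4, pow_nonneg hw 5,
    pow_nonneg hw 6, pow_nonneg hw 7, sq_nonneg (w - 8 / 5), mul_nonneg hw (sq_nonneg (w - 8 / 5)),
    mul_nonneg (pow_nonneg hw 2) (sq_nonneg (w - 8 / 5)),
    mul_nonneg (pow_nonneg hw 3) (sq_nonneg (w - 8 / 5)),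
    mul_nonneg (pow_nonneg hw 4) (sq_nonneg (w - 8 / 5)),
    mul_nonneg (pow_nonneg hw 5) (sq_nonneg (w - 8 / 5))]

end Pool.Agent.N96.AX
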