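import Pool.Agent.N96.AX.J

/-! The criterion in higher dimensions. -/

set_option autoImplicit false

open MeasureTheory Set Filter Topology

namespace Pool.Agent.N96.AX

open Pool.Agent.N96.PR
open Pool.Agent.R117.RL (Kcl Kcl_pow Ga Ga_pos Ga_two Ga_three Ga_step pow_frac om om_pos om_sq)

theorem pos_deriv {s c : ℝ} (hs : 1 < s) (x : ℝ) :
    HasDerivWithinAt (fun y : ℝ => (max 0 (y - c)) ^ s) (s * (max 0 (x - c)) ^ (s - 1)) (Ici x) x := by
  rcases le_or_gt c x with h | h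
  · have h1 : HasDerivAt (fun y : ℝ => (y - c) ^ s) (s * (x - c) ^ (s - 1)) x := by
      have h2 := ((hasDerivAt_id x).sub_const c).rpow_const (p := s) (Or.inr hs.le)
      simpa using h2
    rw [max_eq_right (by linarith)]
    refine h1.hasDerivWithinAt.congr (fun y hy => ?_) ?_
    · have : x ≤ y := hy
      rw [max_eq_right (by linarith)]
    · rw [max_eq_right (by linarith)]
  · rw [max_eq_left (by linarith), Real.zero_rpow (by linarith), mul_zero]
    have h1 : (fun y : ℝ => (max 0 (y - c)) ^ s) =ᶠ[𝓝 x] fun _ => 0 := by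
      filter_upwards [Iio_mem_nhds h] with y hy
      have : y < c := hy
      rw [max_eq_left (by linarith), Real.zero_rpow (by linarith)]
    exact ((hasDerivAt_const x (0 : ℝ)).congr_of_eventuallyEq h1).hasDerivWithinAt

theorem norm_iff {n : ℕ} {L : Finset ℤ} {C : ℝ} : Crit n L C ↔
    ∀ μ : ℝ, 0 < μ → ∑ l ∈ L, (max 0 (μ - ((l : ℝ) ^ 2 - 1 / 4))) ^ (1 + (n : ℝ) / 2) ≤
      C * μ ^ (1 + (n : ℝ) / 2 + 1 / 2) := by
  unfold Crit
  refine forall_congr' fun μ => forall_congr' fun hμ => ?_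
  have e1 : ∀ c : ℝ, max 0 (μ - c) = μ * max 0 (1 - c / μ) := by
    intro c
    rw [mul_max_of_nonneg _ _ hμ.le, mul_zero]
    congr 1
    field_simp
  have e2 : ∑ l ∈ L, (max 0 (μ - ((l : ℝ) ^ 2 - 1 / 4))) ^ (1 + (n : ℝ) / 2) =
      μ ^ (1 + (n : ℝ) / 2) *
        ∑ l ∈ L, (max 0 (1 - ((l : ℝ) ^ 2 - 1 / 4) / μ)) ^ (1 + (n : ℝ) / 2) := by
    rw [Finset.mul_sum]
    refine Finset.sum_congr rfl fun l _ => ?_
    rw [e1, Real.mul_rpow hμ.le (le_max_left _ _)]
  have e3 : C * μ ^ (1 + (n : ℝ) / 2 + 1 / 2) = μ ^ (1 + (n : ℝ) / 2) * (C * √μ) := by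
    rw [Real.rpow_add hμ, Real.sqrt_eq_rpow]
    ring
  rw [e2, e3]
  exact ⟨fun h => mul_le_mul_of_nonneg_left h (by positivity),
    fun h => le_of_mul_le_mul_left h (by positivity)⟩

theorem lift {n : ℕ} {L : Finset ℤ} (h0 : (0 : ℤ) ∉ L) {C : ℝ} (hC : 0 < C) (h : Crit n L C) :
    Crit (n + 2) L (C * ((n : ℝ) + 4) / (n + 5)) := by
  have hne : ∀ l ∈ L, l ≠ 0 := fun l hl h => h0 (h ▸ hl)
  rw [norm_iff] at h ⊢
  intro μ hμ
  set q : ℝ := 1 + (n : ℝ) / 2 with hq
  have hq0 : 0 < q := by rw [hq]; positivity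
  have e1 : 1 + ((n + 2 : ℕ) : ℝ) / 2 = q + 1 := by rw [hq]; push_cast; ring
  rw [e1]
  have key := image_le_of_deriv_right_le_deriv_boundary (a := 0) (b := μ)
    (f := fun y => ∑ l ∈ L, (max 0 (y - ((l : ℝ) ^ 2 - 1 / 4))) ^ (q + 1))
    (f' := fun y => ∑ l ∈ L, (q + 1) * (max 0 (y - ((l : ℝ) ^ 2 - 1 / 4))) ^ (q + 1 - 1))
    (B := fun y => (q + 1) * (C / (q + 1 / 2 + 1)) * y ^ (q + 1 / 2 + 1))
    (B' := fun y => (q + 1) * (C / (q + 1 / 2 + 1)) *
      ((q + 1 / 2 + 1) * y ^ (q + 1 / 2 + 1 - 1))) ?_ ?_ ?_ ?_ ?_ ?_ (x := μ)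
      ⟨hμ.le, le_rfl⟩
  · refine key.trans (le_of_eq ?_)
    have h1 : q + 1 / 2 + 1 = q + 1 + 1 / 2 := by ring
    rw [h1]
    congr 1
    rw [hq]
    field_simp
    ring
  · refine continuousOn_finsetSum _ fun l _ => ?_
    exact ContinuousOn.rpow_const (by fun_prop) fun y _ => Or.inr (by positivity)
  · intro x _
    exact HasDerivWithinAt.fun_sum fun l _ => pos_deriv (by linarith) x
  · rw [Real.zero_rpow (by positivity), mul_zero]
    refine le_of_eq (Finset.sum_eq_zero fun l hl => ?_)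
    have := cl_pos (hne l hl)
    rw [max_eq_left (by linarith), Real.zero_rpow (by positivity)]
  · exact ContinuousOn.mul continuousOn_const
      (ContinuousOn.rpow_const continuousOn_id fun y _ => Or.inr (by positivity))
  · intro x _
    exact ((Real.hasDerivAt_rpow_const (Or.inr (by linarith))).const_mul _).hasDerivWithinAt
  · intro x hx
    have h2 : q + 1 - 1 = q := by ring
    have h3 : q + 1 / 2 + 1 - 1 = q + 1 / 2 := by ring
    rw [h2, h3, ← Finset.mul_sum]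
    have h4 : (q + 1) * (C / (q + 1 / 2 + 1)) * ((q + 1 / 2 + 1) * x ^ (q + 1 / 2)) =
        (q + 1) * (C * x ^ (q + 1 / 2)) := by
      field_simp
    rw [h4]
    refine mul_le_mul_of_nonneg_left ?_ (by positivity)
    rcases hx.1.eq_or_lt with h5 | h5
    · rw [← h5, Real.zero_rpow (by positivity), mul_zero]
      refine le_of_eq (Finset.sum_eq_zero fun l hl => ?_)
      have := cl_pos (hne l hl)
      rw [max_eq_left (by linarith), Real.zero_rpow (by positivity)]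
    · exact h x h5

theorem om_step {n : ℕ} (hn : 0 < n) : om (n + 2) = 2 * Real.pi / ((n : ℝ) + 2) * om n := by
  have h1 := om_pos n
  have h2 := om_pos (n + 2)
  have hπ := Real.pi_pos
  have hG := Ga_pos n
  rw [← pow_left_inj₀ h2.le (by positivity) two_ne_zero, mul_pow, om_sq hn, om_sq (by omega),
    Ga_step, pow_add]
  field_simp

theorem om_three : om 3 = 4 / 3 * Real.pi := by
  have hπ := Real.pi_pos
  have h2 := om_pos 3
  rw [← pow_left_inj₀ h2.le (by positivity) two_ne_zero, om_sq (by norm_num), Ga_three, mul_pow,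
    Real.sq_sqrt hπ.le]
  field_simp

theorem om_two : om 2 = Real.pi := by
  have hπ := Real.pi_pos
  have h2 := om_pos 2
  rw [← pow_left_inj₀ h2.le (by positivity) two_ne_zero, om_sq (by norm_num), Ga_two]
  norm_num

theorem om_four : om 4 = Real.pi ^ 2 / 2 := by
  have h := om_step (n := 2) (by norm_num)
  have e : 2 + 2 = 4 := rfl
  rw [e, om_two] at h
  rw [h]
  push_cast
  ring

/-- the criterion with an admissible constant -/
def Good (n : ℕ) (L : Finset ℤ) : Prop :=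
  ∃ C : ℝ, 0 < C ∧ Crit n L C ∧
    C * (((n : ℝ) + 3) * om n) ≤ √(3 / 4) * (((n : ℝ) + 2) * om (1 + n))

theorem good_lift {n : ℕ} (hn : 0 < n) {L : Finset ℤ} (h0 : (0 : ℤ) ∉ L) (h : Good n L) :
    Good (n + 2) L := by
  obtain ⟨C, hC, hcrit, hc⟩ := h
  have hn' : (0 : ℝ) < n := by exact_mod_cast hn
  have hπ := Real.pi_pos
  refine ⟨C * ((n : ℝ) + 4) / (n + 5), by positivity, lift h0 hC hcrit, ?_⟩
  have e1 : 1 + (n + 2) = (1 + n) + 2 := by ring
  rw [e1, om_step hn, om_step (n := 1 + n) (by omega)]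
  push_cast
  have e2 : C * ((n : ℝ) + 4) / (n + 5) * (((n : ℝ) + 2 + 3) * (2 * Real.pi / (n + 2) * om n)) =
      2 * Real.pi * ((n : ℝ) + 4) / ((n + 2) * (n + 3)) * (C * (((n : ℝ) + 3) * om n)) := by
    have : (n : ℝ) + 2 + 3 = n + 5 := by ring
    rw [this]
    field_simp
  have e3 : √(3 / 4) * (((n : ℝ) + 2 + 2) * (2 * Real.pi / (1 + n + 2) * om (1 + n))) =
      2 * Real.pi * ((n : ℝ) + 4) / ((n + 2) * (n + 3)) *
        (√(3 / 4) * (((n : ℝ) + 2) * om (1 + n))) := by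
    have h1 : (1 : ℝ) + n + 2 = n + 3 := by ring
    have h2 : (n : ℝ) + 2 + 2 = n + 4 := by ring
    rw [h1, h2]
    field_simp
  rw [e2, e3]
  exact mul_le_mul_of_nonneg_left hc (by positivity)

theorem good_all {L : Finset ℤ} (h0 : (0 : ℤ) ∉ L) (h2 : Good 2 L) (h3 : Good 3 L) :
    ∀ n : ℕ, Good (n + 2) L
  | 0 => h2
  | 1 => h3
  | (n + 2) => good_lift (by omega) h0 (good_all h0 h2 h3 n)

end Pool.Agent.N96.AX
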