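import Pool.Agent.N96.AX.K
import Pool.Agent.N96.AX.M

/-! Angular momenta of absolute value at most five. -/

set_option autoImplicit false

open MeasureTheory Set Filter Topology

namespace Pool.Agent.N96.AX

open Pool.Agent.N96.PR
open Pool.Agent.R117.RL (Kcl Kcl_pow Ga Ga_pos Ga_two Ga_three Ga_step pow_frac om om_pos om_sq)

/-- the angular momenta -/
def L5 : Finset ℤ := {1, -1, 2, -2, 3, -3, 4, -4, 5, -5}

theorem L5_zero : (0 : ℤ) ∉ L5 := by decide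

theorem L5_sum (f : ℝ → ℝ) : ∑ l ∈ L5, f ((l : ℝ) ^ 2 - 1 / 4) =
    2 * (f (3 / 4) + f (15 / 4) + f (35 / 4) + f (63 / 4) + f (99 / 4)) := by
  unfold L5
  rw [Finset.sum_insert (by decide), Finset.sum_insert (by decide), Finset.sum_insert (by decide),
    Finset.sum_insert (by decide), Finset.sum_insert (by decide), Finset.sum_insert (by decide),
    Finset.sum_insert (by decide), Finset.sum_insert (by decide), Finset.sum_insert (by decide),
    Finset.sum_singleton]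
  push_cast
  have e1 : ((1 : ℝ) ^ 2 - 1 / 4) = 3 / 4 := by norm_num
  have e1' : ((-1 : ℝ) ^ 2 - 1 / 4) = 3 / 4 := by norm_num
  have e2 : ((2 : ℝ) ^ 2 - 1 / 4) = 15 / 4 := by norm_num
  have e2' : ((-2 : ℝ) ^ 2 - 1 / 4) = 15 / 4 := by norm_num
  have e3 : ((3 : ℝ) ^ 2 - 1 / 4) = 35 / 4 := by norm_num
  have e3' : ((-3 : ℝ) ^ 2 - 1 / 4) = 35 / 4 := by norm_num
  have e4 : ((4 : ℝ) ^ 2 - 1 / 4) = 63 / 4 := by norm_num
  have e4' : ((-4 : ℝ) ^ 2 - 1 / 4) = 63 / 4 := by norm_num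
  have e5 : ((5 : ℝ) ^ 2 - 1 / 4) = 99 / 4 := by norm_num
  have e5' : ((-5 : ℝ) ^ 2 - 1 / 4) = 99 / 4 := by norm_num
  rw [e1, e1', e2, e2', e3, e3', e4, e4', e5, e5']
  ring

/-- the positive part -/
noncomputable def tp (v c : ℝ) : ℝ := max 0 (v ^ 2 - c)

theorem tp_eq {v c : ℝ} (hv : 0 < v) : max 0 (1 - c / v ^ 2) = tp v c / v ^ 2 := by
  unfold tp
  rw [eq_div_iff (by positivity), max_mul_of_nonneg _ _ (by positivity), zero_mul]
  congr 1
  field_simp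

theorem le_of_sq' {a c v : ℝ} (hv : 0 < v) (ha : a ^ 2 ≤ c) (h : c ≤ v ^ 2) : a ≤ v := by
  by_contra h1
  rw [not_le] at h1
  nlinarith

theorem tp_bound2 {v : ℝ} (hv : 0 < v) :
    2 * (tp v (3 / 4) ^ 2 + tp v (15 / 4) ^ 2 + tp v (35 / 4) ^ 2 + tp v (63 / 4) ^ 2 +
      tp v (99 / 4) ^ 2) ≤ 9237 / 10000 * v ^ 5 := by
  unfold tp
  have h5 : 0 < v ^ 5 := by positivity
  rcases le_total (v ^ 2) (3 / 4) with a1 | a1
  · rw [max_eq_left (by linarith), max_eq_left (by linarith), max_eq_left (by linarith),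
      max_eq_left (by linarith), max_eq_left (by linarith)]
    linarith
  rcases le_total (v ^ 2) (15 / 4) with a2 | a2
  · rw [max_eq_right (by linarith : (0 : ℝ) ≤ v ^ 2 - 3 / 4),
      max_eq_left (by linarith : v ^ 2 - 15 / 4 ≤ 0), max_eq_left (by linarith : v ^ 2 - 35 / 4 ≤ 0),
      max_eq_left (by linarith : v ^ 2 - 63 / 4 ≤ 0), max_eq_left (by linarith : v ^ 2 - 99 / 4 ≤ 0)]
    have := q1 (le_of_sq' hv (by norm_num) a1)
    linarith
  rcases le_total (v ^ 2) (35 / 4) with a3 | a3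
  · rw [max_eq_right (by linarith : (0 : ℝ) ≤ v ^ 2 - 3 / 4),
      max_eq_right (by linarith : (0 : ℝ) ≤ v ^ 2 - 15 / 4),
      max_eq_left (by linarith : v ^ 2 - 35 / 4 ≤ 0),
      max_eq_left (by linarith : v ^ 2 - 63 / 4 ≤ 0), max_eq_left (by linarith : v ^ 2 - 99 / 4 ≤ 0)]
    have := q2 (le_of_sq' hv (by norm_num) a2)
    linarith
  rcases le_total (v ^ 2) (63 / 4) with a4 | a4
  · rw [max_eq_right (by linarith : (0 : ℝ) ≤ v ^ 2 - 3 / 4),
      max_eq_right (by linarith : (0 : ℝ) ≤ v ^ 2 - 15 / 4),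
      max_eq_right (by linarith : (0 : ℝ) ≤ v ^ 2 - 35 / 4),
      max_eq_left (by linarith : v ^ 2 - 63 / 4 ≤ 0), max_eq_left (by linarith : v ^ 2 - 99 / 4 ≤ 0)]
    have := q3 (le_of_sq' hv (by norm_num) a3)
    linarith
  rcases le_total (v ^ 2) (99 / 4) with a5 | a5
  · rw [max_eq_right (by linarith : (0 : ℝ) ≤ v ^ 2 - 3 / 4),
      max_eq_right (by linarith : (0 : ℝ) ≤ v ^ 2 - 15 / 4),
      max_eq_right (by linarith : (0 : ℝ) ≤ v ^ 2 - 35 / 4),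
      max_eq_right (by linarith : (0 : ℝ) ≤ v ^ 2 - 63 / 4),
      max_eq_left (by linarith : v ^ 2 - 99 / 4 ≤ 0)]
    have := q4 (le_of_sq' hv (by norm_num) a4)
    linarith
  · rw [max_eq_right (by linarith : (0 : ℝ) ≤ v ^ 2 - 3 / 4),
      max_eq_right (by linarith : (0 : ℝ) ≤ v ^ 2 - 15 / 4),
      max_eq_right (by linarith : (0 : ℝ) ≤ v ^ 2 - 35 / 4),
      max_eq_right (by linarith : (0 : ℝ) ≤ v ^ 2 - 63 / 4),
      max_eq_right (by linarith : (0 : ℝ) ≤ v ^ 2 - 99 / 4)]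
    exact q5 (le_of_sq' hv (by norm_num) a5)

theorem tp_bound3 {v : ℝ} (hv : 0 < v) :
    ct v (tp v (3 / 4)) + ct v (tp v (15 / 4)) + ct v (tp v (35 / 4)) + ct v (tp v (63 / 4)) +
      ct v (tp v (99 / 4)) ≤ 85 / 100 * v ^ 7 := by
  have c0 : ct v 0 = 0 := by unfold ct; ring
  unfold tp
  have h5 : 0 < v ^ 7 := by positivity
  rcases le_total (v ^ 2) (3 / 4) with a1 | a1
  · rw [max_eq_left (by linarith), max_eq_left (by linarith), max_eq_left (by linarith),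
      max_eq_left (by linarith), max_eq_left (by linarith), c0]
    linarith
  rcases le_total (v ^ 2) (15 / 4) with a2 | a2
  · rw [max_eq_right (by linarith : (0 : ℝ) ≤ v ^ 2 - 3 / 4),
      max_eq_left (by linarith : v ^ 2 - 15 / 4 ≤ 0), max_eq_left (by linarith : v ^ 2 - 35 / 4 ≤ 0),
      max_eq_left (by linarith : v ^ 2 - 63 / 4 ≤ 0), max_eq_left (by linarith : v ^ 2 - 99 / 4 ≤ 0),
      c0]
    have := r1 (le_of_sq' hv (by norm_num) a1)
    linarith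
  rcases le_total (v ^ 2) (35 / 4) with a3 | a3
  · rw [max_eq_right (by linarith : (0 : ℝ) ≤ v ^ 2 - 3 / 4),
      max_eq_right (by linarith : (0 : ℝ) ≤ v ^ 2 - 15 / 4),
      max_eq_left (by linarith : v ^ 2 - 35 / 4 ≤ 0),
      max_eq_left (by linarith : v ^ 2 - 63 / 4 ≤ 0), max_eq_left (by linarith : v ^ 2 - 99 / 4 ≤ 0),
      c0]
    have := r2 (le_of_sq' hv (by norm_num) a2)
    linarith
  rcases le_total (v ^ 2) (63 / 4) with a4 | a4
  · rw [max_eq_right (by linarith : (0 : ℝ) ≤ v ^ 2 - 3 / 4),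
      max_eq_right (by linarith : (0 : ℝ) ≤ v ^ 2 - 15 / 4),
      max_eq_right (by linarith : (0 : ℝ) ≤ v ^ 2 - 35 / 4),
      max_eq_left (by linarith : v ^ 2 - 63 / 4 ≤ 0), max_eq_left (by linarith : v ^ 2 - 99 / 4 ≤ 0),
      c0]
    have := r3 (le_of_sq' hv (by norm_num) a3)
    linarith
  rcases le_total (v ^ 2) (99 / 4) with a5 | a5
  · rw [max_eq_right (by linarith : (0 : ℝ) ≤ v ^ 2 - 3 / 4),
      max_eq_right (by linarith : (0 : ℝ) ≤ v ^ 2 - 15 / 4),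
      max_eq_right (by linarith : (0 : ℝ) ≤ v ^ 2 - 35 / 4),
      max_eq_right (by linarith : (0 : ℝ) ≤ v ^ 2 - 63 / 4),
      max_eq_left (by linarith : v ^ 2 - 99 / 4 ≤ 0), c0]
    have := r4 (le_of_sq' hv (by norm_num) a4)
    linarith
  · rw [max_eq_right (by linarith : (0 : ℝ) ≤ v ^ 2 - 3 / 4),
      max_eq_right (by linarith : (0 : ℝ) ≤ v ^ 2 - 15 / 4),
      max_eq_right (by linarith : (0 : ℝ) ≤ v ^ 2 - 35 / 4),
      max_eq_right (by linarith : (0 : ℝ) ≤ v ^ 2 - 63 / 4),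
      max_eq_right (by linarith : (0 : ℝ) ≤ v ^ 2 - 99 / 4)]
    exact r5 (le_of_sq' hv (by norm_num) a5)

theorem crit_two : Crit 2 L5 (9237 / 10000) := by
  intro μ hμ
  set v := √μ with hv
  have hv0 : 0 < v := Real.sqrt_pos.2 hμ
  have hμv : μ = v ^ 2 := (Real.sq_sqrt hμ.le).symm
  rw [L5_sum (fun c => (max 0 (1 - c / μ)) ^ (1 + ((2 : ℕ) : ℝ) / 2)), hμv]
  simp only [tp_eq hv0]
  have e : (1 + ((2 : ℕ) : ℝ) / 2) = ((2 : ℕ) : ℝ) := by norm_num
  rw [e]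
  simp only [Real.rpow_natCast, div_pow]
  have h := tp_bound2 hv0
  have h4 : 0 < (v ^ 2) ^ 2 := by positivity
  rw [← add_div, ← add_div, ← add_div, ← add_div, ← mul_div_assoc, div_le_iff₀ h4]
  refine h.trans (le_of_eq ?_)
  ring

theorem five_half {x : ℝ} (hx : 0 ≤ x) :
    x ^ (1 + ((3 : ℕ) : ℝ) / 2) ≤ (9 / 10 * x ^ 2 + 10 / 9 * x ^ 3) / 2 := by
  have e : x ^ (1 + ((3 : ℕ) : ℝ) / 2) = x ^ 2 * √x := by
    have : (1 + ((3 : ℕ) : ℝ) / 2) = ((2 : ℕ) : ℝ) + 1 / 2 := by norm_num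
    rw [this, Real.rpow_add_of_nonneg hx (by positivity) (by norm_num), Real.rpow_natCast,
      Real.sqrt_eq_rpow]
  rw [e]
  have h1 : √x ^ 2 = x := Real.sq_sqrt hx
  have h2 : √x ≤ (9 / 10 + 10 / 9 * x) / 2 := by nlinarith [sq_nonneg (√x - 9 / 10)]
  have h3 := mul_le_mul_of_nonneg_left h2 (sq_nonneg x)
  refine h3.trans (le_of_eq ?_)
  ring

theorem crit_three : Crit 3 L5 (85 / 100) := by
  intro μ hμ
  set v := √μ with hv
  have hv0 : 0 < v := Real.sqrt_pos.2 hμ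
  have hμv : μ = v ^ 2 := (Real.sq_sqrt hμ.le).symm
  rw [L5_sum (fun c => (max 0 (1 - c / μ)) ^ (1 + ((3 : ℕ) : ℝ) / 2)), hμv]
  have h6 : 0 < v ^ 6 := by positivity
  have hb : ∀ c : ℝ, 2 * (max 0 (1 - c / v ^ 2)) ^ (1 + ((3 : ℕ) : ℝ) / 2) ≤
      ct v (tp v c) / v ^ 6 := by
    intro c
    have h1 := five_half (le_max_left 0 (1 - c / v ^ 2))
    have h2 : ct v (tp v c) / v ^ 6 = 9 / 10 * (max 0 (1 - c / v ^ 2)) ^ 2 +
        10 / 9 * (max 0 (1 - c / v ^ 2)) ^ 3 := by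
      rw [tp_eq hv0]
      unfold ct
      field_simp
    rw [h2]
    linarith
  have h := tp_bound3 hv0
  have h7 : (ct v (tp v (3 / 4)) + ct v (tp v (15 / 4)) + ct v (tp v (35 / 4)) +
      ct v (tp v (63 / 4)) + ct v (tp v (99 / 4))) / v ^ 6 ≤ 85 / 100 * v := by
    rw [div_le_iff₀ h6]
    refine h.trans (le_of_eq ?_)
    ring
  rw [add_div, add_div, add_div, add_div] at h7
  have := hb (3 / 4)
  have := hb (15 / 4)
  have := hb (35 / 4)
  have := hb (63 / 4)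
  have := hb (99 / 4)
  linarith

theorem sqrt34 : (0.866 : ℝ) ≤ √(3 / 4) ∧ (0.86602 : ℝ) ≤ √(3 / 4) := by
  constructor <;> · apply Real.le_sqrt_of_sq_le; norm_num

theorem good_two : Good 2 L5 := by
  refine ⟨9237 / 10000, by norm_num, crit_two, ?_⟩
  have hπ := Real.pi_pos
  have e : 1 + 2 = 3 := rfl
  rw [e, om_two, om_three]
  push_cast
  have h := sqrt34.2
  nlinarith [mul_le_mul_of_nonneg_right h hπ.le]

theorem good_three : Good 3 L5 := by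
  refine ⟨85 / 100, by norm_num, crit_three, ?_⟩
  have hπ := Real.pi_pos
  have hπ2 := Real.pi_gt_d4
  have e : 1 + 3 = 4 := rfl
  rw [e, om_three, om_four]
  push_cast
  have h := sqrt34.2
  have h1 : 85 / 100 * ((3 + 3) * (4 / 3 * Real.pi)) = 6.8 * Real.pi := by ring
  have h2 : √(3 / 4) * ((3 + 2) * (Real.pi ^ 2 / 2)) = (2.5 * √(3 / 4) * Real.pi) * Real.pi := by
    ring
  rw [h1, h2]
  refine mul_le_mul_of_nonneg_right ?_ hπ.le
  nlinarith

theorem good5 (n : ℕ) : Good (n + 2) L5 := good_all L5_zero good_two good_three n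

/-- all angular momenta of absolute value one to five, in all dimensions at least three -/
theorem five {k N : ℕ} (hk : 1 ≤ k) (ℓ : Fin N → ℤ) (hℓ : ∀ n, ℓ n ∈ L5)
    (u : Fin N → ℂ × (Fin k → ℝ) → ℂ)
    (hr : ∀ n, Rot (ℓ n) (u n)) (hCd : ∀ n, ContDiffOn ℝ 1 (u n) {z | z.1 ≠ 0})
    (h2 : ∀ n, Integrable (fun z => ‖u n z‖ ^ 2)) (he : ∀ n, Integrable (gradC (u n)))
    (ho : ∀ n m, ∫ z, star (u n z) * u m z = if n = m then (1 : ℂ) else 0) :
    Integrable (fun z => (∑ n, ‖u n z‖ ^ 2) ^ (1 + 2 / ((1 + (k + 1) : ℕ) : ℝ))) ∧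
    Kcl (1 + (k + 1)) *
      ∫ z, (∑ n, ‖u n z‖ ^ 2) ^ (1 + 2 / ((1 + (k + 1) : ℕ) : ℝ)) ≤
      ∑ n, ∫ z, gradC (u n) z := by
  obtain ⟨m, rfl⟩ : ∃ m, k = m + 1 := ⟨k - 1, by omega⟩
  obtain ⟨C, hC, hcrit, hc⟩ := good5 m
  exact critSystem L5_zero hC hcrit hc ℓ hℓ u hr hCd h2 he ho

end Pool.Agent.N96.AX
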