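import Pool.Agent.N96.AX.I
import Pool.Agent.N96.PR.K

/-! The dual inequality for partially radial systems. -/

set_option autoImplicit false

open MeasureTheory Set Filter Topology

namespace Pool.Agent.N96.AX

open Pool.Agent.N96.PR
open Pool.Agent.R117.RL (E Kcl om om_pos)

theorem LA_Kcl {n : ℕ} (hn : 0 < n) :
    LA n (Kcl n) = 2 / ((n : ℝ) + 2) * (om n / (2 * Real.pi) ^ n) := by
  have hn' : (0 : ℝ) < n := by exact_mod_cast hn
  have ho := om_pos n
  have hπ := Real.pi_pos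
  have e1 : ((n : ℝ) + 2) / n * Kcl n = (2 * Real.pi) ^ 2 / om n ^ (2 / (n : ℝ)) := by
    unfold Kcl
    field_simp
  have e2 : (((n : ℝ) + 2) / n * Kcl n) ^ ((n : ℝ) / 2) = (2 * Real.pi) ^ n / om n := by
    have h2 : 2 / (n : ℝ) * (n / 2) = 1 := by field_simp
    have h3 : ((2 : ℕ) : ℝ) * ((n : ℝ) / 2) = n := by push_cast; ring
    have h5 : (om n ^ (2 / (n : ℝ))) ^ ((n : ℝ) / 2) = om n := by
      rw [← Real.rpow_mul ho.le, h2, Real.rpow_one]
    have h6 : ((2 * Real.pi) ^ 2) ^ ((n : ℝ) / 2) = (2 * Real.pi) ^ n := by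
      rw [← Real.rpow_natCast (2 * Real.pi) 2, ← Real.rpow_mul (by positivity), h3,
        Real.rpow_natCast]
    rw [e1, Real.div_rpow (by positivity) (by positivity), h5, h6]
  unfold LA
  rw [e2]
  field_simp

theorem dual {q k N : ℕ} (hq : 5 ≤ q) (u : Fin N → E (q + 1) × (Fin k → ℝ) → ℂ)
    (hr : ∀ n x x' y, ‖x‖ = ‖x'‖ → u n (x, y) = u n (x', y))
    (hC : ∀ n, ContDiffOn ℝ 1 (u n) {z | z.1 ≠ 0})
    (h2 : ∀ n, Integrable (fun z => ‖u n z‖ ^ 2)) (he : ∀ n, Integrable (grad2 (u n)))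
    (ho : ∀ n m, ∫ z, star (u n z) * u m z = if n = m then (1 : ℂ) else 0)
    (V : E (q + 1) × (Fin k → ℝ) → ℝ) (hVm : AEStronglyMeasurable V volume)
    (hV : Integrable (fun z => |V z| ^ (1 + ((q + (k + 1) : ℕ) : ℝ) / 2))) :
    (∀ n, Integrable (fun z => V z * ‖u n z‖ ^ 2)) ∧
    -(2 / (((q + (k + 1) : ℕ) : ℝ) + 2) * (om (q + (k + 1)) / (2 * Real.pi) ^ (q + (k + 1))) *
      ∫ z, (max (-V z) 0) ^ (1 + ((q + (k + 1) : ℕ) : ℝ) / 2)) ≤
      ∑ n, ((∫ z, grad2 (u n) z) + ∫ z, V z * ‖u n z‖ ^ 2) := by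
  have hd : 0 < q + (k + 1) := by omega
  obtain ⟨hI, hK⟩ := full hq u hr hC h2 he ho
  rw [← LA_Kcl hd]
  generalize q + (k + 1) = d at *
  have hKp := Kcl_pos hd
  have hd' : (0 : ℝ) < d := by exact_mod_cast hd
  set ρ : E (q + 1) × (Fin k → ℝ) → ℝ := fun z => ∑ n, ‖u n z‖ ^ 2 with hρ
  have hρ0 : ∀ z, 0 ≤ ρ z := fun z => Finset.sum_nonneg fun n _ => sq_nonneg _
  have hρm : AEStronglyMeasurable ρ volume :=
    (integrable_finsetSum _ fun n _ => h2 n).aestronglyMeasurable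
  have hA : 0 < LA d (Kcl d) := LA_pos hd hKp
  have hVρ : Integrable (fun z => |V z| * ρ z) := by
    refine Integrable.mono' ((hI.const_mul 1).add (hV.const_mul (LA d 1))) (hVm.norm.mul hρm)
      (Eventually.of_forall fun z => ?_)
    rw [Real.norm_of_nonneg (mul_nonneg (abs_nonneg _) (hρ0 z))]
    exact young hd one_pos (hρ0 z) (abs_nonneg _)
  have hVn : ∀ n, Integrable (fun z => V z * ‖u n z‖ ^ 2) := by
    intro n
    refine Integrable.mono' hVρ (hVm.mul (h2 n).aestronglyMeasurable)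
      (Eventually.of_forall fun z => ?_)
    rw [norm_mul, Real.norm_eq_abs, Real.norm_of_nonneg (sq_nonneg _)]
    refine mul_le_mul_of_nonneg_left ?_ (abs_nonneg _)
    exact Finset.single_le_sum (f := fun n => ‖u n z‖ ^ 2) (fun n _ => sq_nonneg _)
      (Finset.mem_univ n)
  refine ⟨hVn, ?_⟩
  have hq0 : 0 < 1 + (d : ℝ) / 2 := by positivity
  have hVa : Integrable (fun z => (max (-V z) 0) ^ (1 + (d : ℝ) / 2)) := by
    have hm : AEMeasurable (fun z => max (-V z) 0) volume :=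
      hVm.aemeasurable.neg.max aemeasurable_const
    refine Integrable.mono' hV (hm.pow_const _).aestronglyMeasurable
      (Eventually.of_forall fun z => ?_)
    rw [Real.norm_of_nonneg (Real.rpow_nonneg (le_max_right _ _) _)]
    exact Real.rpow_le_rpow (le_max_right _ _) (max_le (neg_le_abs _) (abs_nonneg _)) hq0.le
  rw [Finset.sum_add_distrib, ← integral_finsetSum _ fun n _ => hVn n]
  have h3 : ∀ z, -(Kcl d * ρ z ^ (1 + 2 / (d : ℝ)) + LA d (Kcl d) *
      (max (-V z) 0) ^ (1 + (d : ℝ) / 2)) ≤ ∑ n, V z * ‖u n z‖ ^ 2 := by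
    intro z
    have h4 := young hd hKp (hρ0 z) (le_max_right (-V z) 0)
    rw [← Finset.mul_sum]
    have h5 : -(max (-V z) 0 * ρ z) ≤ V z * ρ z := by
      have h6 : -max (-V z) 0 ≤ V z := by
        have := le_max_left (-V z) 0
        linarith
      nlinarith [mul_le_mul_of_nonneg_right h6 (hρ0 z)]
    show _ ≤ V z * ρ z
    linarith
  have h4 : ∫ z, -(Kcl d * ρ z ^ (1 + 2 / (d : ℝ)) + LA d (Kcl d) *
      (max (-V z) 0) ^ (1 + (d : ℝ) / 2)) ≤ ∫ z, ∑ n, V z * ‖u n z‖ ^ 2 :=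
    integral_mono ((hI.const_mul _).add (hVa.const_mul _)).neg
      (integrable_finsetSum _ fun n _ => hVn n) h3
  rw [integral_neg, integral_add (hI.const_mul _) (hVa.const_mul _), integral_const_mul,
    integral_const_mul] at h4
  linarith

end Pool.Agent.N96.AX
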