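import Pool.Agent.N96.AX.P
import Pool.Agent.N96.AX.Q

/-! The dual inequality for axial systems. -/

set_option autoImplicit false

open MeasureTheory Set Filter Topology

namespace Pool.Agent.N96.AX

open Pool.Agent.N96.PR
open Pool.Agent.R117.RL (E Kcl om om_pos)

/-- Young's inequality for the density -/
theorem dualGen {X : Type} [MeasurableSpace X] {μ : Measure X} {d N : ℕ} (hd : 0 < d)
    (u : Fin N → X → ℂ) (T : Fin N → ℝ) (h2 : ∀ n, Integrable (fun z => ‖u n z‖ ^ 2) μ)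
    (hI : Integrable (fun z => (∑ n, ‖u n z‖ ^ 2) ^ (1 + 2 / (d : ℝ))) μ)
    (hK : Kcl d * ∫ z, (∑ n, ‖u n z‖ ^ 2) ^ (1 + 2 / (d : ℝ)) ∂μ ≤ ∑ n, T n)
    (V : X → ℝ) (hVm : AEStronglyMeasurable V μ)
    (hV : Integrable (fun z => |V z| ^ (1 + (d : ℝ) / 2)) μ) :
    (∀ n, Integrable (fun z => V z * ‖u n z‖ ^ 2) μ) ∧
    -(2 / ((d : ℝ) + 2) * (om d / (2 * Real.pi) ^ d) *
      ∫ z, (max (-V z) 0) ^ (1 + (d : ℝ) / 2) ∂μ) ≤
      ∑ n, (T n + ∫ z, V z * ‖u n z‖ ^ 2 ∂μ) := by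
  rw [← LA_Kcl hd]
  have hKp := Kcl_pos hd
  have hd' : (0 : ℝ) < d := by exact_mod_cast hd
  set ρ : X → ℝ := fun z => ∑ n, ‖u n z‖ ^ 2 with hρ
  have hρ0 : ∀ z, 0 ≤ ρ z := fun z => Finset.sum_nonneg fun n _ => sq_nonneg _
  have hρm : AEStronglyMeasurable ρ μ :=
    (integrable_finsetSum _ fun n _ => h2 n).aestronglyMeasurable
  have hA : 0 < LA d (Kcl d) := LA_pos hd hKp
  have hVρ : Integrable (fun z => |V z| * ρ z) μ := by
    refine Integrable.mono' ((hI.const_mul 1).add (hV.const_mul (LA d 1))) (hVm.norm.mul hρm)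
      (Eventually.of_forall fun z => ?_)
    rw [Real.norm_of_nonneg (mul_nonneg (abs_nonneg _) (hρ0 z))]
    exact young hd one_pos (hρ0 z) (abs_nonneg _)
  have hVn : ∀ n, Integrable (fun z => V z * ‖u n z‖ ^ 2) μ := by
    intro n
    refine Integrable.mono' hVρ (hVm.mul (h2 n).aestronglyMeasurable)
      (Eventually.of_forall fun z => ?_)
    rw [norm_mul, Real.norm_eq_abs, Real.norm_of_nonneg (sq_nonneg _)]
    refine mul_le_mul_of_nonneg_left ?_ (abs_nonneg _)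
    exact Finset.single_le_sum (f := fun n => ‖u n z‖ ^ 2) (fun n _ => sq_nonneg _)
      (Finset.mem_univ n)
  refine ⟨hVn, ?_⟩
  have hq0 : 0 < 1 + (d : ℝ) / 2 := by positivity
  have hVa : Integrable (fun z => (max (-V z) 0) ^ (1 + (d : ℝ) / 2)) μ := by
    have hm : AEMeasurable (fun z => max (-V z) 0) μ :=
      hVm.aemeasurable.neg.max aemeasurable_const
    refine Integrable.mono' hV (hm.pow_const _).aestronglyMeasurable
      (Eventually.of_forall fun z => ?_)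
    rw [Real.norm_of_nonneg (Real.rpow_nonneg (le_max_right _ _) _)]
    exact Real.rpow_le_rpow (le_max_right _ _) (max_le (neg_le_abs _) (abs_nonneg _)) hq0.le
  rw [Finset.sum_add_distrib, ← integral_finsetSum _ fun n _ => hVn n]
  have h3 : ∀ z, -(Kcl d * ρ z ^ (1 + 2 / (d : ℝ)) + LA d (Kcl d) *
      (max (-V z) 0) ^ (1 + (d : ℝ) / 2)) ≤ ∑ n, V z * ‖u n z‖ ^ 2 := by
    intro z
    have h4 := young hd hKp (hρ0 z) (le_max_right (-V z) 0)
    rw [← Finset.mul_sum]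
    have h5 : -(max (-V z) 0 * ρ z) ≤ V z * ρ z := by
      have h6 : -max (-V z) 0 ≤ V z := by
        have := le_max_left (-V z) 0
        linarith
      nlinarith [mul_le_mul_of_nonneg_right h6 (hρ0 z)]
    show _ ≤ V z * ρ z
    linarith
  have h4 : ∫ z, -(Kcl d * ρ z ^ (1 + 2 / (d : ℝ)) + LA d (Kcl d) *
      (max (-V z) 0) ^ (1 + (d : ℝ) / 2)) ∂μ ≤ ∫ z, ∑ n, V z * ‖u n z‖ ^ 2 ∂μ :=
    integral_mono ((hI.const_mul _).add (hVa.const_mul _)).neg
      (integrable_finsetSum _ fun n _ => hVn n) h3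
  rw [integral_neg, integral_add (hI.const_mul _) (hVa.const_mul _), integral_const_mul,
    integral_const_mul] at h4
  linarith

end Pool.Agent.N96.AX
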